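import Pool.Agent.Q166.ExF

/-!
# Windows above the powers of all real bases: starting points of free windows
-/

set_option autoImplicit false

namespace Pool.Agent.Q166.EB

open Finset MeasureTheory Filter Topology Pool.Agent.Q120.ET Pool.Agent.Q120.MF Pool.Agent.Q120.AD Pool.Agent.Q166.Sq
open Pool.Agent.Q166.Ex
open scoped ENNReal NNReal

/-- the open window `(x, x + h)` contains no element of `S` -/
def Free (S : Set ℕ) (x h : ℝ) : Prop := ∀ m ∈ S, ¬ (x < (m : ℝ) ∧ (m : ℝ) < x + h)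

theorem Free.mono {S : Set ℕ} {x h h' : ℝ} (hf : Free S x h) (hh : h' ≤ h) : Free S x h' :=
  fun m hm hcon => hf m hm ⟨hcon.1, by linarith [hcon.2]⟩

/-- the logarithms of the exceptional bases -/
def YS (S : Set ℕ) (L : ℕ → ℝ) : Set ℝ := {y | 0 < y ∧ ∃ᶠ n : ℕ in atTop, Free S (Real.exp (n * y)) (L n)}

theorem YS_anti {S : Set ℕ} {L L' : ℕ → ℝ} (h : ∀ᶠ n in atTop, L' n ≤ L n) : YS S L ⊆ YS S L' := by
  rintro y ⟨h1, h2⟩
  exact ⟨h1, (h2.and_eventually h).mono fun n hn => hn.1.mono hn.2⟩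

/-- the length of the windows for the upper bound -/
noncomputable def hu (lam : ℝ) (n : ℕ) : ℕ := ⌊lam * (n : ℝ) ^ 2⌋₊ - 2

theorem hu_add_two_le {lam : ℝ} {n : ℕ} (h : 2 ≤ lam * (n : ℝ) ^ 2) :
    (hu lam n : ℝ) + 2 ≤ lam * (n : ℝ) ^ 2 := by
  unfold hu
  have h1 : 2 ≤ ⌊lam * (n : ℝ) ^ 2⌋₊ := Nat.le_floor (by exact_mod_cast h)
  have h2 : ⌊lam * (n : ℝ) ^ 2⌋₊ - 2 + 2 = ⌊lam * (n : ℝ) ^ 2⌋₊ := by omega
  have h3 : (((⌊lam * (n : ℝ) ^ 2⌋₊ - 2 : ℕ) : ℝ) + 2) = (⌊lam * (n : ℝ) ^ 2⌋₊ : ℝ) := by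
    exact_mod_cast congrArg (Nat.cast (R := ℝ)) h2
  rw [h3]
  exact Nat.floor_le (by linarith)

theorem le_hu (lam : ℝ) (n : ℕ) : lam * (n : ℝ) ^ 2 - 3 ≤ (hu lam n : ℝ) := by
  unfold hu
  have h8 : (⌊lam * (n : ℝ) ^ 2⌋₊ : ℝ) ≤ ((⌊lam * (n : ℝ) ^ 2⌋₊ - 2 : ℕ) : ℝ) + 2 := by
    have : ⌊lam * (n : ℝ) ^ 2⌋₊ ≤ ⌊lam * (n : ℝ) ^ 2⌋₊ - 2 + 2 := by omega
    exact_mod_cast this
  have h9 := Nat.lt_floor_add_one (lam * (n : ℝ) ^ 2)
  linarith

open Classical in
/-- The starting points of free windows. -/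
noncomputable def st (S : Set ℕ) (lam V : ℝ) (n : ℕ) : Finset ℕ :=
  (Icc 2 (⌊Real.exp (n * V)⌋₊ + 1)).filter (fun m => ∀ k ∈ S, ¬ (m < k ∧ k ≤ m + hu lam n))

theorem mem_st {S : Set ℕ} {lam V y : ℝ} {n : ℕ} (hn : 2 ≤ lam * (n : ℝ) ^ 2) (hy : 0 ≤ y)
    (hyV : y ≤ V) (hf : Free S (Real.exp (n * y)) (lam * (n : ℝ) ^ 2)) :
    ⌊Real.exp (n * y)⌋₊ + 1 ∈ st S lam V n := by
  classical
  have h1 : 1 ≤ Real.exp (n * y) := Real.one_le_exp (by positivity)
  have h2 : 1 ≤ ⌊Real.exp (n * y)⌋₊ := Nat.le_floor (by exact_mod_cast h1)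
  have hn0 : (0 : ℝ) ≤ n := Nat.cast_nonneg n
  unfold st
  rw [mem_filter, mem_Icc]
  refine ⟨⟨by omega, ?_⟩, ?_⟩
  · have : ⌊Real.exp (n * y)⌋₊ ≤ ⌊Real.exp (n * V)⌋₊ :=
      Nat.floor_le_floor (Real.exp_le_exp.2 (mul_le_mul_of_nonneg_left hyV hn0))
    omega
  · rintro k hk ⟨h3, h4⟩
    apply hf k hk
    have h5 := Nat.floor_le (show 0 ≤ Real.exp (n * y) by positivity)
    have h6 := Nat.lt_floor_add_one (Real.exp (n * y))
    have h7 := hu_add_two_le hn
    constructor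
    · have : ((⌊Real.exp (n * y)⌋₊ + 1 : ℕ) : ℝ) < k := by exact_mod_cast h3
      push_cast at this
      linarith
    · have : ((k : ℕ) : ℝ) ≤ ((⌊Real.exp (n * y)⌋₊ + 1 + hu lam n : ℕ) : ℝ) := by exact_mod_cast h4
      push_cast at this
      linarith

variable {Ω : Type*} [MeasurableSpace Ω] {μ : Measure Ω} [IsProbabilityMeasure μ] {A : Ω → Set ℕ}

/-- the probability that a window is free -/
theorem prob_free_le (hA : IsCramer μ A) {lam V δ : ℝ} (hlam : 0 < lam) (hV : 0 < V) (hδ : 0 < δ) :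
    ∀ᶠ n : ℕ in atTop, ∀ m : ℕ, 2 ≤ m → (m : ℝ) ≤ Real.exp (n * V) + 1 →
      μ.real {ω | Disjoint (tr A (Ioc m (m + hu lam n)) ω) (Ioc m (m + hu lam n))} ≤
        Real.exp (-(n * (lam / V - δ))) := by
  have h1 : ∀ᶠ n : ℕ in atTop, 1 + lam * (n : ℝ) ^ 2 ≤ Real.exp (n * V) := by
    have h2 : Tendsto (fun x : ℝ => x ^ 2 / Real.exp (V * x)) atTop (𝓝 0) := by
      have := Real.tendsto_pow_mul_exp_neg_atTop_nhds_zero 2
      have h3 : Tendsto (fun x : ℝ => (1 / V ^ 2) * ((V * x) ^ 2 * Real.exp (-(V * x)))) atTop (𝓝 (1 / V ^ 2 * 0)) :=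
        (this.comp (tendsto_id.const_mul_atTop hV)).const_mul _
      rw [mul_zero] at h3
      refine h3.congr fun x => ?_
      rw [Real.exp_neg]
      field_simp
    have h4 := (h2.comp (tendsto_natCast_atTop_atTop (R := ℝ))).eventually_lt_const
      (show (0 : ℝ) < 1 / (lam + 1) by positivity)
    filter_upwards [h4, eventually_ge_atTop 1] with n hn hn1
    have hn1' : (1 : ℝ) ≤ n := by exact_mod_cast hn1
    simp only [Function.comp_apply] at hn
    rw [div_lt_div_iff₀ (Real.exp_pos _) (by positivity), one_mul] at hn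
    have h5 : (1 : ℝ) ≤ (n : ℝ) ^ 2 := one_le_pow₀ hn1'
    rw [mul_comm (n : ℝ) V]
    nlinarith
  obtain ⟨D, hD⟩ : ∃ D : ℝ, D = (3 + lam / V) / (δ * V) + 1 := ⟨_, rfl⟩
  filter_upwards [h1, eventually_ge_atTop 1, (tendsto_natCast_atTop_atTop (R := ℝ)).eventually_ge_atTop D,
    (tendsto_natCast_atTop_atTop (R := ℝ)).eventually_ge_atTop 1] with n hn1 hn2 hn3 hn4 m hm2 hm
  have hn0 : (0 : ℝ) < n := by linarith
  rw [real_free hA (fun k hk => by have := (mem_Ioc.1 hk).1; omega)]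
  have hz : ∀ k ∈ Ioc m (m + hu lam n), (k : ℝ) ≤ 2 * Real.exp (n * V) := by
    intro k hk
    have h2 : ((k : ℕ) : ℝ) ≤ ((m + hu lam n : ℕ) : ℝ) := by exact_mod_cast (mem_Ioc.1 hk).2
    push_cast at h2
    have h3 : (hu lam n : ℝ) ≤ lam * (n : ℝ) ^ 2 := by
      unfold hu
      have h8 : ((⌊lam * (n : ℝ) ^ 2⌋₊ - 2 : ℕ) : ℝ) ≤ (⌊lam * (n : ℝ) ^ 2⌋₊ : ℝ) := by
        exact_mod_cast Nat.sub_le _ _
      exact h8.trans (Nat.floor_le (by positivity))
    linarith
  refine (prod_le_exp (fun k hk => by have := (mem_Ioc.1 hk).1; omega) hz).trans ?_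
  rw [Nat.card_Ioc, Nat.add_sub_cancel_left]
  apply Real.exp_le_exp.2
  rw [neg_le_neg_iff]
  have hlog2 : Real.log 2 ≤ 1 := by
    have := Real.log_two_lt_d9
    linarith
  have hlog2' : 0 < Real.log 2 := Real.log_pos (by norm_num)
  have e1 : Real.log (2 * Real.exp (n * V)) ≤ n * V + 1 := by
    rw [Real.log_mul (by norm_num) (Real.exp_pos _).ne', Real.log_exp]
    linarith
  have e2 : 0 < Real.log (2 * Real.exp (n * V)) := by
    rw [Real.log_mul (by norm_num) (Real.exp_pos _).ne', Real.log_exp]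
    positivity
  have e3 : (hu lam n : ℝ) / (n * V + 1) ≤ (hu lam n : ℝ) / Real.log (2 * Real.exp (n * V)) :=
    div_le_div_of_nonneg_left (Nat.cast_nonneg _) e2 e1
  refine le_trans ?_ e3
  rw [le_div_iff₀ (by positivity)]
  refine le_trans ?_ (le_hu lam n)
  -- `n (lam / V - δ) (n V + 1) ≤ lam n ^ 2 - 3`
  have e4 : (n : ℝ) * (lam / V - δ) * (n * V + 1) = lam * (n : ℝ) ^ 2 + n * (lam / V) - δ * n * (n * V + 1) := by
    field_simp
  rw [e4]
  have e5 : 3 + lam / V ≤ δ * V * n := by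
    rw [hD] at hn3
    have : (3 + lam / V) / (δ * V) ≤ n := by linarith
    rw [div_le_iff₀ (by positivity)] at this
    linarith
  have e6 : (3 + lam / V) * n ≤ δ * V * n * n := mul_le_mul_of_nonneg_right e5 hn0.le
  have e7 : 0 ≤ δ * n := by positivity
  nlinarith

theorem summable_exp_neg {a : ℝ} (ha : 0 < a) : Summable fun n : ℕ => Real.exp (-(n * a)) := by
  have h := summable_geometric_of_lt_one (Real.exp_pos (-a)).le (by
    rw [Real.exp_lt_one_iff]
    linarith)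
  refine h.congr fun n => ?_
  rw [← Real.exp_nat_mul]
  congr 1
  ring

/-- **Few starting points of free windows.** -/
theorem few_st (hA : IsCramer μ A) {lam V δ : ℝ} (hlam : 0 < lam) (hV : 0 < V) (hδ : 0 < δ) :
    ∀ᵐ ω ∂μ, ∀ᶠ n : ℕ in atTop,
      ((st (A ω) lam V n).card : ℝ) < Real.exp (n * (V - lam / V + δ)) := by
  classical
  have hsub : ∀ (n : ℕ) (x : ℝ), {ω | x ≤ ((st (A ω) lam V n).card : ℝ)} =
      {ω | x ≤ (((Icc 2 (⌊Real.exp (n * V)⌋₊ + 1)).filter (fun m => ω ∈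
        {ω | Disjoint (tr A (Ioc m (m + hu lam n)) ω) (Ioc m (m + hu lam n))})).card : ℝ)} := by
    intro n x
    ext ω
    simp only [Set.mem_ofPred_eq]
    have h1 : st (A ω) lam V n = (Icc 2 (⌊Real.exp (n * V)⌋₊ + 1)).filter (fun m =>
        Disjoint (tr A (Ioc m (m + hu lam n)) ω) (Ioc m (m + hu lam n))) := by
      unfold st
      apply filter_congr
      intro m _
      rw [Finset.disjoint_left]
      constructor
      · intro h k hk1 hk2
        rw [mem_tr] at hk1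
        exact h k hk1.2 (mem_Ioc.1 hk1.1)
      · intro h k hk hcon
        exact h (mem_tr.2 ⟨mem_Ioc.2 hcon, hk⟩) (mem_Ioc.2 hcon)
    rw [h1]
  have h3 := ae_all_grid (μ := μ) (τ := Unit) (fun _ => {()})
    (fun n _ => {ω | Real.exp (n * (V - lam / V + δ)) ≤ ((st (A ω) lam V n).card : ℝ)})
    (fun n : ℕ => 2 * Real.exp (-(n * (δ / 2)))) ((summable_exp_neg (half_pos hδ)).mul_left 2) (by
      filter_upwards [prob_free_le hA hlam hV (half_pos hδ)] with n hn
      rw [sum_singleton, hsub]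
      refine (markov (μ := μ) (Icc 2 (⌊Real.exp (n * V)⌋₊ + 1)) (fun m =>
        {ω | Disjoint (tr A (Ioc m (m + hu lam n)) ω) (Ioc m (m + hu lam n))})
        (fun m _ => measurable_free hA _) (Real.exp_pos _)).trans ?_
      have hp : ∀ m ∈ Icc 2 (⌊Real.exp (n * V)⌋₊ + 1),
          μ.real {ω | Disjoint (tr A (Ioc m (m + hu lam n)) ω) (Ioc m (m + hu lam n))} ≤
          Real.exp (-(n * (lam / V - δ / 2))) := by
        intro m hm
        rw [mem_Icc] at hm
        refine hn m hm.1 ?_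
        have h4 := Nat.floor_le (show 0 ≤ Real.exp (n * V) by positivity)
        have h5 : (m : ℝ) ≤ ((⌊Real.exp (n * V)⌋₊ + 1 : ℕ) : ℝ) := by exact_mod_cast hm.2
        push_cast at h5
        linarith
      have hcard : ((Icc 2 (⌊Real.exp (n * V)⌋₊ + 1)).card : ℝ) ≤ 2 * Real.exp (n * V) := by
        rw [Nat.card_Icc]
        have h2 : (⌊Real.exp (n * V)⌋₊ : ℝ) ≤ Real.exp (n * V) := Nat.floor_le (by positivity)
        have h3 : ((⌊Real.exp (n * V)⌋₊ + 1 + 1 - 2 : ℕ) : ℝ) ≤ (⌊Real.exp (n * V)⌋₊ : ℝ) := by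
          exact_mod_cast (show ⌊Real.exp (n * V)⌋₊ + 1 + 1 - 2 ≤ ⌊Real.exp (n * V)⌋₊ by omega)
        have := Real.exp_pos (n * V)
        linarith
      have hsum := sum_le_sum hp
      rw [sum_const, nsmul_eq_mul] at hsum
      rw [div_le_iff₀ (Real.exp_pos _)]
      refine hsum.trans ((mul_le_mul_of_nonneg_right hcard (Real.exp_pos _).le).trans (le_of_eq ?_))
      rw [mul_assoc, mul_assoc, ← Real.exp_add, ← Real.exp_add]
      congr 2
      ring)
  filter_upwards [h3] with ω hω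
  filter_upwards [hω] with i hi
  exact not_le.1 (hi () (mem_singleton_self _))

/-- no exceptional base in a range without free windows, uniformly -/
theorem hit_of_few {S : Set ℕ} {lam V t : ℝ} (hlam : 0 < lam) (ht : t ≤ 0)
    (h : ∀ᶠ n : ℕ in atTop, ((st S lam V n).card : ℝ) < Real.exp (n * t)) :
    ∀ᶠ n : ℕ in atTop, ∀ y : ℝ, 0 ≤ y → y ≤ V → ¬ Free S (Real.exp (n * y)) (lam * (n : ℝ) ^ 2) := by
  have h1 : ∀ᶠ n : ℕ in atTop, 2 ≤ lam * (n : ℝ) ^ 2 :=
    (((tendsto_pow_atTop (two_ne_zero)).comp (tendsto_natCast_atTop_atTop (R := ℝ))).const_mul_atTop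
      hlam).eventually_ge_atTop 2
  filter_upwards [h, h1] with n hn hn1 y hy hyV hf
  have hm := mem_st hn1 hy hyV hf
  have h4 : (1 : ℝ) ≤ ((st S lam V n).card : ℝ) := by
    exact_mod_cast card_pos.2 ⟨_, hm⟩
  have h5 : Real.exp (n * t) ≤ 1 := by
    rw [Real.exp_le_one_iff]
    exact mul_nonpos_of_nonneg_of_nonpos (Nat.cast_nonneg n) ht
  linarith

/-- **The covers.** -/
theorem dimH_YS_le {S : Set ℕ} {lam U V t s : ℝ} (hlam : 0 < lam) (hU : 0 < U) (hs : 0 ≤ s) (hts : t < U * s)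
    (h : ∀ᶠ n : ℕ in atTop, ((st S lam V n).card : ℝ) < Real.exp (n * t)) :
    dimH (YS S (fun n => lam * (n : ℝ) ^ 2) ∩ Set.Icc U V) ≤ ENNReal.ofReal s := by
  classical
  have h1 : ∀ᶠ n : ℕ in atTop, 2 ≤ lam * (n : ℝ) ^ 2 :=
    (((tendsto_pow_atTop (two_ne_zero)).comp (tendsto_natCast_atTop_atTop (R := ℝ))).const_mul_atTop
      hlam).eventually_ge_atTop 2
  have hexpt : Tendsto (fun n : ℕ => Real.exp (n * U)) atTop atTop :=
    Real.tendsto_exp_atTop.comp ((tendsto_natCast_atTop_atTop (R := ℝ)).atTop_mul_const hU)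
  obtain ⟨n0, hn0⟩ := eventually_atTop.1 (h.and (h1.and ((hexpt.eventually_ge_atTop 2).and
    (eventually_ge_atTop 1))))
  have hdt : Tendsto (fun n : ℕ => 2 * Real.exp (-(n * U))) atTop (𝓝 0) := by
    have := (Real.tendsto_exp_neg_atTop_nhds_zero.comp
      ((tendsto_natCast_atTop_atTop (R := ℝ)).atTop_mul_const hU)).const_mul 2
    simpa using this
  apply dimH_limsup_le hs (fun n => if n < n0 then ∅ else st S lam V n)
    (fun n m => Set.Icc (Real.log ((m : ℝ) - 1) / n) (Real.log ((m : ℝ) - 1) / n + 2 * Real.exp (-(n * U))))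
    (fun n => 2 * Real.exp (-(n * U)))
  · intro i
    positivity
  · exact hdt
  · intro i p _
    rw [Real.ediam_Icc]
    exact le_of_eq (by congr 1; ring)
  · rintro y ⟨⟨hy1, hy2⟩, hy3, hy4⟩
    refine (hy2.and_eventually (eventually_ge_atTop n0)).mono ?_
    rintro n ⟨hf, hn⟩
    obtain ⟨-, e1, e2, e3⟩ := hn0 n hn
    have hm := mem_st e1 hy1.le hy4 hf
    refine ⟨⌊Real.exp (n * y)⌋₊ + 1, ?_, ?_⟩
    · simp only [show ¬ n < n0 by omega, if_false]
      exact hm
    · have hn1 : (1 : ℝ) ≤ n := by exact_mod_cast e3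
      push_cast
      rw [add_sub_cancel_right]
      obtain ⟨x, hx⟩ : ∃ x : ℝ, x = Real.exp (n * y) := ⟨_, rfl⟩
      have hxU : Real.exp (n * U) ≤ x := by
        rw [hx]
        exact Real.exp_le_exp.2 (mul_le_mul_of_nonneg_left hy3 (by linarith))
      have hlx : Real.log x = n * y := by rw [hx, Real.log_exp]
      rw [← hx]
      obtain ⟨k, hk⟩ : ∃ k : ℝ, k = (⌊x⌋₊ : ℝ) := ⟨_, rfl⟩
      have hk1 : k ≤ x := by rw [hk]; exact Nat.floor_le (by linarith)
      have hk2 : x < k + 1 := by rw [hk]; exact Nat.lt_floor_add_one x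
      rw [← hk]
      have hk0 : Real.exp (n * U) / 2 ≤ k := by linarith
      have hkpos : 0 < k := by
        have := Real.exp_pos (n * U)
        linarith
      simp only [Set.mem_Icc]
      constructor
      · rw [div_le_iff₀ (by linarith)]
        calc Real.log k ≤ Real.log x := Real.log_le_log hkpos hk1
          _ = y * n := by rw [hlx]; ring
      · have e4 : Real.log x ≤ Real.log k + 1 / k := by
          have e5 : Real.log x ≤ Real.log (k * (1 + 1 / k)) := by
            apply Real.log_le_log (by linarith)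
            rw [mul_add, mul_one, mul_one_div_cancel hkpos.ne']
            exact hk2.le
          rw [Real.log_mul hkpos.ne' (by positivity)] at e5
          have e6 := Real.log_le_sub_one_of_pos (show 0 < 1 + 1 / k by positivity)
          linarith
        have e7 : 1 / k ≤ 2 * Real.exp (-(n * U)) := by
          rw [Real.exp_neg, ← div_eq_mul_inv, div_le_div_iff₀ hkpos (Real.exp_pos _)]
          linarith
        have e8 : y ≤ (Real.log k + 2 * Real.exp (-(n * U))) / n := by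
          rw [le_div_iff₀ (by linarith)]
          linarith
        refine e8.trans ?_
        rw [add_div]
        have e9 : 2 * Real.exp (-(n * U)) / n ≤ 2 * Real.exp (-(n * U)) :=
          div_le_self (by positivity) hn1
        linarith
  · have hsum : Summable fun n : ℕ => 2 ^ s * Real.exp (-(n * (U * s - t))) :=
      (summable_exp_neg (show 0 < U * s - t by linarith)).mul_left (2 ^ s)
    refine Summable.of_nonneg_of_le (fun i => by positivity) (fun i => ?_) hsum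
    by_cases hi : i < n0
    · simp only [hi, if_true, card_empty, Nat.cast_zero, zero_mul]
      positivity
    · simp only [hi, if_false]
      have e1 := (hn0 i (by omega)).1
      rw [Real.mul_rpow (by norm_num) (Real.exp_pos _).le, ← Real.exp_mul]
      calc ((st S lam V i).card : ℝ) * (2 ^ s * Real.exp (-(i * U) * s)) ≤
            Real.exp (i * t) * (2 ^ s * Real.exp (-(i * U) * s)) :=
              mul_le_mul_of_nonneg_right e1.le (by positivity)
        _ = 2 ^ s * (Real.exp (i * t) * Real.exp (-(i * U) * s)) := by ring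
        _ = _ := by
          rw [← Real.exp_add]
          congr 2
          ring

end Pool.Agent.Q166.EB
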