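import Pool.Agent.Q166.EB.A

/-!
# Windows above the powers of all real bases: free windows exist
-/

set_option autoImplicit false

namespace Pool.Agent.Q166.EB

open Finset MeasureTheory Filter Topology Pool.Agent.Q120.ET Pool.Agent.Q120.MF Pool.Agent.Q120.AD Pool.Agent.Q166.Sq
open Pool.Agent.Q166.Ex
open scoped ENNReal NNReal

/-- the length of the windows for the lower bound -/
noncomputable def hh (lam : ℝ) (n : ℕ) : ℕ := ⌈lam * (n : ℝ) ^ 2⌉₊ + 3

/-- the windows after `a` -/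
noncomputable def WB (lam : ℝ) (n a t : ℕ) : Finset ℕ :=
  Ioc (a + t * hh lam n) (a + t * hh lam n + hh lam n)

theorem hh_le {lam : ℝ} (hlam : 0 ≤ lam) (n : ℕ) : (hh lam n : ℝ) ≤ lam * (n : ℝ) ^ 2 + 4 := by
  unfold hh
  push_cast
  have := Nat.ceil_lt_add_one (show 0 ≤ lam * (n : ℝ) ^ 2 by positivity)
  linarith

theorem le_hh (lam : ℝ) (n : ℕ) : lam * (n : ℝ) ^ 2 + 3 ≤ (hh lam n : ℝ) := by
  unfold hh
  push_cast
  have := Nat.le_ceil (lam * (n : ℝ) ^ 2)
  linarith

theorem tn : Tendsto (fun n : ℕ => (n : ℝ)) atTop atTop := tendsto_natCast_atTop_atTop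

theorem ev_exp {a : ℝ} (ha : 0 < a) (C : ℝ) : ∀ᶠ n : ℕ in atTop, C ≤ Real.exp (n * a) :=
  (Real.tendsto_exp_atTop.comp (tn.atTop_mul_const ha)).eventually_ge_atTop C

theorem ev_sq {a : ℝ} (ha : 0 < a) (C : ℝ) : ∀ᶠ n : ℕ in atTop, C * (n : ℝ) ^ 2 ≤ Real.exp (n * a) := by
  have h2 : Tendsto (fun x : ℝ => x ^ 2 / Real.exp (a * x)) atTop (𝓝 0) := by
    have := Real.tendsto_pow_mul_exp_neg_atTop_nhds_zero 2
    have h3 : Tendsto (fun x : ℝ => (1 / a ^ 2) * ((a * x) ^ 2 * Real.exp (-(a * x)))) atTop (𝓝 (1 / a ^ 2 * 0)) :=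
      (this.comp (tendsto_id.const_mul_atTop ha)).const_mul _
    rw [mul_zero] at h3
    refine h3.congr fun x => ?_
    rw [Real.exp_neg]
    field_simp
  have h4 := (h2.comp tn).eventually_lt_const (show (0 : ℝ) < 1 / (|C| + 1) by positivity)
  filter_upwards [h4] with n hn
  simp only [Function.comp_apply] at hn
  rw [div_lt_div_iff₀ (Real.exp_pos _) (by positivity), one_mul] at hn
  rw [mul_comm (n : ℝ) a]
  have h5 : C * (n : ℝ) ^ 2 ≤ |C| * (n : ℝ) ^ 2 := mul_le_mul_of_nonneg_right (le_abs_self C) (by positivity)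
  have h6 : 0 ≤ (n : ℝ) ^ 2 := by positivity
  linarith

/-- the windows are free with at least this probability -/
theorem ev_prob {lam U ε : ℝ} (hlam : 0 < lam) (hU : 0 < U) (hε : 0 < ε) :
    ∀ᶠ n : ℕ in atTop, ∀ a : ℕ, Real.exp (n * U) ≤ a → ∀ t,
      Real.exp (-(n * (lam / U + ε))) ≤ ∏ k ∈ WB lam n a t, (1 - 1 / Real.log (k : ℝ)) := by
  obtain ⟨δ, hδ⟩ : ∃ δ : ℝ, δ = U * ε / (2 * lam) := ⟨_, rfl⟩
  have hδ0 : 0 < δ := by rw [hδ]; positivity
  have hδlam : δ * lam = U * ε / 2 := by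
    rw [hδ]
    field_simp
  obtain ⟨D1, hD1⟩ : ∃ D : ℝ, D = (1 + δ) / (δ * U) := ⟨_, rfl⟩
  obtain ⟨D2, hD2⟩ : ∃ D : ℝ, D = (1 + δ) * 4 / (U * ε / 2) + 1 := ⟨_, rfl⟩
  filter_upwards [tn.eventually_ge_atTop D1, tn.eventually_ge_atTop D2, tn.eventually_ge_atTop 1] with n h1 h2 h3 a ha t
  have hn0 : (0 : ℝ) < n := by linarith
  have hlog : Real.log (Real.exp (n * U)) = n * U := Real.log_exp _
  have hW : ∀ k ∈ WB lam n a t, Real.exp (n * U) ≤ k := by
    intro k hk
    unfold WB at hk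
    rw [mem_Ioc] at hk
    have e1 : a ≤ k := by omega
    have e2 : (a : ℝ) ≤ k := by exact_mod_cast e1
    linarith
  have h5 : 1 + δ ≤ δ * (n * U) := by
    rw [hD1, div_le_iff₀ (by positivity)] at h1
    linarith
  refine le_trans ?_ (exp_le_prod (δ := δ) (by rw [hlog]; positivity) (by positivity) hW hδ0 (by rw [hlog]; exact h5))
  rw [Real.exp_le_exp, hlog, neg_le_neg_iff]
  have hcard : (WB lam n a t).card = hh lam n := by
    unfold WB
    rw [Nat.card_Ioc, Nat.add_sub_cancel_left]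
  rw [hcard, div_le_iff₀ (by positivity)]
  have e1 : (n : ℝ) * (lam / U + ε) * (n * U) = (lam + U * ε) * (n : ℝ) ^ 2 := by
    field_simp
  rw [e1]
  have e2 := hh_le hlam.le n
  have e3 : (1 + δ) * 4 ≤ U * ε / 2 * (n : ℝ) ^ 2 := by
    have e4 : (1 + δ) * 4 / (U * ε / 2) ≤ n := by
      rw [hD2] at h2
      linarith
    rw [div_le_iff₀ (by positivity)] at e4
    have e5 : (n : ℝ) ≤ (n : ℝ) ^ 2 := by nlinarith
    have e6 : 0 < U * ε / 2 := by positivity
    nlinarith
  calc (1 + δ) * (hh lam n : ℝ) ≤ (1 + δ) * (lam * (n : ℝ) ^ 2 + 4) :=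
        mul_le_mul_of_nonneg_left e2 (by linarith)
    _ = lam * (n : ℝ) ^ 2 + (δ * lam) * (n : ℝ) ^ 2 + (1 + δ) * 4 := by ring
    _ = lam * (n : ℝ) ^ 2 + U * ε / 2 * (n : ℝ) ^ 2 + (1 + δ) * 4 := by rw [hδlam]
    _ ≤ _ := by linarith

variable {Ω : Type*} [MeasurableSpace Ω] {μ : Measure Ω} [IsProbabilityMeasure μ] {A : Ω → Set ℕ}

/-- **Independence**: there are free windows. -/
theorem none_window (hA : IsCramer μ A) {lam U ρ ε : ℝ} (hlam : 0 < lam) (hU : 0 < U)
    (hε : 0 < ε) (h1 : lam / U + 2 * ε ≤ ρ) :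
    ∀ᶠ n : ℕ in atTop, ∀ a : ℕ, Real.exp (n * U) ≤ a →
      μ.real {ω | ∀ t ∈ range ⌈Real.exp (n * ρ)⌉₊,
        ¬ Disjoint (tr A (WB lam n a t) ω) (WB lam n a t)} ≤ Real.exp (-(Real.exp (n * ε))) := by
  classical
  filter_upwards [ev_prob hlam hU hε, ev_exp hU 3] with n h3 h4 a ha
  have ha3 : (3 : ℝ) ≤ a := by linarith
  have ha3' : 3 ≤ a := by exact_mod_cast ha3
  have h6 := none_le hA (range ⌈Real.exp (n * ρ)⌉₊) (fun t => WB lam n a t)
    (by
      intro t _ k hk
      unfold WB at hk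
      rw [mem_Ioc] at hk
      omega)
    (by
      have key : ∀ t t' : ℕ, t < t' → Disjoint (WB lam n a t) (WB lam n a t') := by
        intro t t' htt
        have e4 : (t + 1) * hh lam n ≤ t' * hh lam n := Nat.mul_le_mul_right _ htt
        rw [Finset.disjoint_left]
        intro k hk hk'
        unfold WB at hk hk'
        rw [mem_Ioc] at hk hk'
        rw [add_mul, one_mul] at e4
        omega
      intro t _ t' _ htt
      rcases lt_or_gt_of_ne htt with h | h
      · exact key t t' h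
      · exact (key t' t h).symm)
    (fun t T => Disjoint T (WB lam n a t)) (p := Real.exp (-(n * (lam / U + ε)))) (by
      intro t _
      rw [sum_free (Subset.refl _)]
      exact h3 a ha t)
  refine h6.trans (Real.exp_le_exp.2 (neg_le_neg ?_))
  rw [card_range]
  calc Real.exp (n * ε) ≤ Real.exp (n * ρ) * Real.exp (-(n * (lam / U + ε))) := by
        rw [← Real.exp_add]
        apply Real.exp_le_exp.2
        have := mul_le_mul_of_nonneg_left h1 (Nat.cast_nonneg (α := ℝ) n)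
        linarith
    _ ≤ (⌈Real.exp (n * ρ)⌉₊ : ℝ) * Real.exp (-(n * (lam / U + ε))) :=
        mul_le_mul_of_nonneg_right (Nat.le_ceil _) (by positivity)

/-- **Hits**, in all positions. -/
theorem hits_ae (hA : IsCramer μ A) {lam U V ρ ε : ℝ} (hlam : 0 < lam) (hU : 0 < U) (hUV : U ≤ V)
    (hε : 0 < ε) (h1 : lam / U + 2 * ε ≤ ρ) :
    ∀ᵐ ω ∂μ, ∀ᶠ n : ℕ in atTop, ∀ a : ℕ, Real.exp (n * U) ≤ a → (a : ℝ) ≤ Real.exp (n * V) + 1 →
      ∃ t < ⌈Real.exp (n * ρ)⌉₊, ∀ k ∈ A ω, k ∉ WB lam n a t := by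
  classical
  have h3 := ae_all_grid (μ := μ) (τ := ℕ)
    (fun n : ℕ => (range (⌊Real.exp (n * V)⌋₊ + 2)).filter fun a : ℕ => Real.exp (n * U) ≤ a)
    (fun n a => {ω | ∀ t ∈ range ⌈Real.exp (n * ρ)⌉₊,
        ¬ Disjoint (tr A (WB lam n a t) ω) (WB lam n a t)})
    (fun n : ℕ => 3 * Real.exp (-(n * 1))) ((summable_exp_neg one_pos).mul_left 3) (by
      filter_upwards [none_window hA hlam hU hε h1, ev_sq hε (V + 1), tn.eventually_ge_atTop 1] with n h2 h4 h5
      refine (sum_le_sum (fun a ha => h2 a (mem_filter.1 ha).2)).trans ?_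
      rw [sum_const, nsmul_eq_mul]
      have e1 : ((((range (⌊Real.exp (n * V)⌋₊ + 2)).filter fun a : ℕ => Real.exp (n * U) ≤ a).card : ℕ) : ℝ) ≤
          3 * Real.exp (n * V) := by
        have e2 := card_filter_le (range (⌊Real.exp (n * V)⌋₊ + 2)) (fun a : ℕ => Real.exp (n * U) ≤ a)
        rw [card_range] at e2
        have e3 : ((((range (⌊Real.exp (n * V)⌋₊ + 2)).filter fun a : ℕ => Real.exp (n * U) ≤ a).card : ℕ) : ℝ) ≤
          ((⌊Real.exp (n * V)⌋₊ + 2 : ℕ) : ℝ) := by exact_mod_cast e2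
        refine e3.trans ?_
        push_cast
        have e4 := Nat.floor_le (show 0 ≤ Real.exp (n * V) by positivity)
        have e5 : 1 ≤ Real.exp (n * V) := Real.one_le_exp (mul_nonneg (Nat.cast_nonneg n) (by linarith))
        linarith
      refine (mul_le_mul_of_nonneg_right e1 (Real.exp_pos _).le).trans ?_
      rw [mul_assoc, ← Real.exp_add]
      apply mul_le_mul_of_nonneg_left _ (by norm_num)
      apply Real.exp_le_exp.2
      have e6 : (n : ℝ) ≤ (n : ℝ) ^ 2 := by nlinarith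
      have e7 : (V + 1) * (n : ℝ) ≤ (V + 1) * (n : ℝ) ^ 2 := mul_le_mul_of_nonneg_left e6 (by linarith)
      linarith)
  filter_upwards [h3] with ω hω
  filter_upwards [hω] with n hn a ha1 ha2
  have h4 := hn a (by
    rw [mem_filter, mem_range]
    refine ⟨?_, ha1⟩
    have e1 : (a : ℝ) - 1 ≤ Real.exp (n * V) := by linarith
    have e2 : a - 1 ≤ ⌊Real.exp (n * V)⌋₊ := by
      apply Nat.le_floor
      rcases Nat.eq_zero_or_pos a with h | h
      · rw [h]
        simpa using (Real.exp_pos _).le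
      · rw [Nat.cast_sub h]
        simpa using e1
    omega)
  have h5 : ¬ ∀ t ∈ range ⌈Real.exp (n * ρ)⌉₊, ¬ Disjoint (tr A (WB lam n a t) ω) (WB lam n a t) := h4
  push Not at h5
  obtain ⟨t, ht, ht'⟩ := h5
  exact ⟨t, mem_range.1 ht, disjoint_tr_iff.1 ht'⟩

/-- the logarithms of the bases whose `n`-th window is free -/
def FY (S : Set ℕ) (lam : ℝ) (n : ℕ) : Set ℝ := {y | Free S (Real.exp (n * y)) (lam * (n : ℝ) ^ 2)}

theorem hit_step {S : Set ℕ} {lam U V ρ ε : ℝ} (hlam : 0 < lam) (hU : 0 < U) (hρ : 0 ≤ ρ) (hε : 0 < ε) :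
    ∀ᶠ n : ℕ in atTop, (∀ a : ℕ, Real.exp (n * U) ≤ a → (a : ℝ) ≤ Real.exp (n * V) + 1 →
      ∃ t < ⌈Real.exp (n * ρ)⌉₊, ∀ k ∈ S, k ∉ WB lam n a t) →
      ∀ w, U ≤ w → w + 3 * Real.exp (-(n * (U - ρ - ε))) ≤ V → ∃ w', w ≤ w' ∧
        w' + Real.exp (-(n * (V + ε))) ≤ w + 3 * Real.exp (-(n * (U - ρ - ε))) ∧
        Set.Icc w' (w' + Real.exp (-(n * (V + ε)))) ⊆ FY S lam n := by
  filter_upwards [ev_sq hε (lam + 8), ev_sq hε 4, tn.eventually_ge_atTop 1] with n h1 h2 h3 hits w hw1 hw2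
  have hn0 : (0 : ℝ) < n := by linarith
  have hn2 : (1 : ℝ) ≤ (n : ℝ) ^ 2 := one_le_pow₀ h3
  obtain ⟨β, hβ⟩ : ∃ β : ℝ, β = U - ρ - ε := ⟨_, rfl⟩
  rw [← hβ] at hw2 ⊢
  have hβ0 : 0 < Real.exp (-(n * β)) := Real.exp_pos _
  have hpβ : Real.exp (-(n * (V + ε))) ≤ Real.exp (-(n * β)) := by
    apply Real.exp_le_exp.2
    apply neg_le_neg
    apply mul_le_mul_of_nonneg_left _ hn0.le
    rw [hβ]
    linarith
  obtain ⟨x, hx⟩ : ∃ x : ℝ, x = Real.exp (n * w) := ⟨_, rfl⟩
  have hx0 : 0 < x := by rw [hx]; exact Real.exp_pos _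
  have hUx : Real.exp (n * U) ≤ x := by
    rw [hx]
    exact Real.exp_le_exp.2 (mul_le_mul_of_nonneg_left hw1 hn0.le)
  have hxV : x ≤ Real.exp (n * V) := by
    rw [hx]
    exact Real.exp_le_exp.2 (mul_le_mul_of_nonneg_left (by linarith) hn0.le)
  have hfl := Nat.floor_le hx0.le
  have hfl2 := Nat.lt_floor_add_one x
  obtain ⟨t, ht, hf⟩ := hits (⌊x⌋₊ + 1) (by push_cast; linarith) (by push_cast; linarith)
  obtain ⟨m, hm⟩ : ∃ m : ℕ, m = ⌊x⌋₊ + 1 + t * hh lam n := ⟨_, rfl⟩
  have hmr : (m : ℝ) = (⌊x⌋₊ : ℝ) + 1 + t * hh lam n := by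
    rw [hm]
    push_cast
    ring
  have hf' : ∀ k ∈ S, k ∉ Ioc m (m + hh lam n) := by
    rw [hm]
    exact hf
  have ht0 : (0 : ℝ) ≤ (t : ℝ) * hh lam n := by positivity
  have hxm : x ≤ m := by linarith
  have ht' : (t : ℝ) ≤ Real.exp (n * ρ) := (Nat.lt_ceil.1 ht).le
  have hρ1 : 1 ≤ Real.exp (n * ρ) := Real.one_le_exp (by positivity)
  have hH := hh_le hlam.le n
  have htH : (t : ℝ) * hh lam n + 2 ≤ Real.exp (n * (ρ + ε)) := by
    calc (t : ℝ) * hh lam n + 2 ≤ Real.exp (n * ρ) * hh lam n + Real.exp (n * ρ) * 2 := by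
          have := mul_le_mul_of_nonneg_right ht' (Nat.cast_nonneg (α := ℝ) (hh lam n))
          linarith
      _ = Real.exp (n * ρ) * (hh lam n + 2) := by ring
      _ ≤ Real.exp (n * ρ) * Real.exp (n * ε) := by
          apply mul_le_mul_of_nonneg_left _ (by positivity)
          nlinarith
      _ = Real.exp (n * (ρ + ε)) := by
          rw [← Real.exp_add]
          congr 1
          ring
  have hm0 : (0 : ℝ) ≤ m := Nat.cast_nonneg m
  obtain ⟨y0, hy0⟩ : ∃ y0 : ℝ, y0 = Real.log (m + 1) / n := ⟨_, rfl⟩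
  have hyl : n * y0 = Real.log (m + 1) := by
    rw [hy0]
    field_simp
  have hwy : w ≤ y0 := by
    rw [hy0, le_div_iff₀ hn0]
    have e1 : Real.log x = n * w := by rw [hx, Real.log_exp]
    have e2 := Real.log_le_log hx0 (show x ≤ (m : ℝ) + 1 by linarith)
    linarith
  have hm1 : (m : ℝ) + 1 ≤ x * (1 + Real.exp (-(n * β))) := by
    have e1 : Real.exp (n * (ρ + ε)) = Real.exp (n * U) * Real.exp (-(n * β)) := by
      rw [← Real.exp_add]
      congr 1
      rw [hβ]
      ring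
    have e2 := mul_le_mul_of_nonneg_right hUx hβ0.le
    linarith
  have hyw : y0 ≤ w + Real.exp (-(n * β)) := by
    have e6 := Real.log_le_log (by linarith) hm1
    rw [Real.log_mul hx0.ne' (by positivity)] at e6
    have e1 : Real.log x = n * w := by rw [hx, Real.log_exp]
    have e7 := Real.log_le_sub_one_of_pos (show 0 < 1 + Real.exp (-(n * β)) by positivity)
    have e8 : Real.exp (-(n * β)) ≤ n * Real.exp (-(n * β)) := le_mul_of_one_le_left hβ0.le h3
    have e9 : n * y0 ≤ n * (w + Real.exp (-(n * β))) := by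
      rw [hyl]
      linarith
    exact le_of_mul_le_mul_left e9 hn0
  refine ⟨y0, hwy, by linarith, ?_⟩
  rintro y ⟨hy1, hy2⟩ k hk hcon
  have e1 : (m : ℝ) + 1 ≤ Real.exp (n * y) := by
    rw [← Real.log_le_iff_le_exp (by positivity), ← hyl]
    exact mul_le_mul_of_nonneg_left hy1 hn0.le
  have e0 : ((m : ℝ) + 2) * (n * Real.exp (-(n * (V + ε)))) ≤ 1 := by
    have e11 : (m : ℝ) + 2 ≤ 4 * Real.exp (n * V) := by
      by_cases hb : β ≤ 0
      · -- impossible: the room is too small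
        have e12 : 1 ≤ Real.exp (-(n * β)) := Real.one_le_exp (by nlinarith)
        have e13 : Real.exp (n * (ρ + ε)) = Real.exp (n * U) * Real.exp (-(n * β)) := by
          rw [← Real.exp_add]
          congr 1
          rw [hβ]
          ring
        have e14 : Real.exp (n * (ρ + ε)) ≤ Real.exp (n * V) := by
          apply Real.exp_le_exp.2
          apply mul_le_mul_of_nonneg_left _ hn0.le
          have e15 : 1 + -(n * β) ≤ Real.exp (-(n * β)) := by
            have := Real.add_one_le_exp (-(n * β))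
            linarith
          have e16 : -β ≤ n * -β := le_mul_of_one_le_left (by linarith) h3
          have e17 : ρ + ε = U - β := by rw [hβ]; ring
          rw [e17]
          linarith
        have e18 : 1 ≤ Real.exp (n * V) := Real.one_le_exp (mul_nonneg hn0.le (by linarith))
        linarith
      · push Not at hb
        have e12 : Real.exp (-(n * β)) ≤ 1 := by
          rw [Real.exp_le_one_iff]
          have : 0 < n * β := by positivity
          linarith
        have e18 : 1 ≤ Real.exp (n * V) := Real.one_le_exp (mul_nonneg hn0.le (by linarith))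
        have e19 : x * (1 + Real.exp (-(n * β))) ≤ x * 2 := mul_le_mul_of_nonneg_left (by linarith) hx0.le
        linarith
    calc ((m : ℝ) + 2) * (n * Real.exp (-(n * (V + ε)))) ≤
          (4 * Real.exp (n * V)) * (n * Real.exp (-(n * (V + ε)))) :=
            mul_le_mul_of_nonneg_right e11 (by positivity)
      _ = 4 * n * Real.exp (-(n * ε)) := by
          have : Real.exp (-(n * (V + ε))) = Real.exp (-(n * V)) * Real.exp (-(n * ε)) := by
            rw [← Real.exp_add]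
            congr 1
            ring
          rw [this, Real.exp_neg (n * V)]
          field_simp
      _ ≤ 1 := by
          rw [Real.exp_neg, ← div_eq_mul_inv, div_le_one (Real.exp_pos _)]
          nlinarith
  have e3 : Real.exp (n * y) ≤ (m : ℝ) + 2 := by
    rw [← Real.le_log_iff_exp_le (by positivity)]
    have e4 : n * y ≤ Real.log (m + 1) + n * Real.exp (-(n * (V + ε))) := by
      have := mul_le_mul_of_nonneg_left hy2 hn0.le
      rw [mul_add, hyl] at this
      exact this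
    have e5 : n * Real.exp (-(n * (V + ε))) ≤ 1 / ((m : ℝ) + 2) := by
      rw [le_div_iff₀ (by positivity)]
      linarith
    have e6 := Real.one_sub_inv_le_log_of_pos (show 0 < ((m : ℝ) + 2) / (m + 1) by positivity)
    rw [Real.log_div (by positivity) (by positivity), inv_div] at e6
    have e7 : 1 - ((m : ℝ) + 1) / (m + 2) = 1 / (m + 2) := by
      field_simp
      ring
    linarith
  apply hf' k hk
  rw [mem_Ioc]
  constructor
  · have : (m : ℝ) < k := by linarith [hcon.1]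
    exact_mod_cast this
  · have e9 := le_hh lam n
    have : (k : ℝ) ≤ ((m + hh lam n : ℕ) : ℝ) := by
      push_cast
      linarith [hcon.2]
    exact_mod_cast this

end Pool.Agent.Q166.EB
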