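import Pool.Agent.Q166.EB.B

/-!
# Windows above the powers of all real bases: one null set, the dimensions
-/

set_option autoImplicit false

namespace Pool.Agent.Q166.EB

open Finset MeasureTheory Filter Topology Pool.Agent.Q120.ET Pool.Agent.Q120.MF Pool.Agent.Q120.AD Pool.Agent.Q166.Sq
open Pool.Agent.Q166.Ex
open scoped ENNReal NNReal

/-- the properties of almost every set, with rational parameters -/
structure Good (S : Set ℕ) : Prop where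
  start : ∀ lam V δ : ℚ, (0 : ℝ) < lam → (0 : ℝ) < V → (0 : ℝ) < δ → ∀ᶠ n : ℕ in atTop,
    ((st S lam V n).card : ℝ) < Real.exp (n * ((V : ℝ) - lam / V + δ))
  hits : ∀ lam U V ρ ε : ℚ, (0 : ℝ) < lam → (0 : ℝ) < U → (U : ℝ) < V → (0 : ℝ) < ε →
    (lam : ℝ) / U + 2 * ε ≤ ρ → ∀ᶠ n : ℕ in atTop, ∀ w : ℝ, (U : ℝ) ≤ w →
      w + 3 * Real.exp (-(n * ((U : ℝ) - ρ - ε))) ≤ V → ∃ w' : ℝ, w ≤ w' ∧
        w' + Real.exp (-(n * ((V : ℝ) + ε))) ≤ w + 3 * Real.exp (-(n * ((U : ℝ) - ρ - ε))) ∧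
        Set.Icc w' (w' + Real.exp (-(n * ((V : ℝ) + ε)))) ⊆ FY S lam n

theorem ae_good {Ω : Type*} [MeasurableSpace Ω] {μ : Measure Ω} [IsProbabilityMeasure μ] {A : Ω → Set ℕ}
    (hA : IsCramer μ A) : ∀ᵐ ω ∂μ, Good (A ω) := by
  have h1 : ∀ᵐ ω ∂μ, ∀ lam V δ : ℚ, (0 : ℝ) < lam → (0 : ℝ) < V → (0 : ℝ) < δ → ∀ᶠ n : ℕ in atTop,
      ((st (A ω) lam V n).card : ℝ) < Real.exp (n * ((V : ℝ) - lam / V + δ)) := by
    simp only [ae_all_iff]
    intro lam V δ hlam hV hδ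
    exact few_st hA hlam hV hδ
  have h2 : ∀ᵐ ω ∂μ, ∀ lam U V ρ ε : ℚ, (0 : ℝ) < lam → (0 : ℝ) < U → (U : ℝ) < V → (0 : ℝ) < ε →
      (lam : ℝ) / U + 2 * ε ≤ ρ → ∀ᶠ n : ℕ in atTop, ∀ a : ℕ, Real.exp (n * (U : ℝ)) ≤ a →
      (a : ℝ) ≤ Real.exp (n * (V : ℝ)) + 1 →
      ∃ t < ⌈Real.exp (n * (ρ : ℝ))⌉₊, ∀ k ∈ A ω, k ∉ WB lam n a t := by
    simp only [ae_all_iff]
    intro lam U V ρ ε hlam hU hUV hε h1
    exact hits_ae hA hlam hU hUV.le hε h1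
  filter_upwards [h1, h2] with ω hω1 hω2
  refine ⟨hω1, fun lam U V ρ ε hlam hU hUV hε h => ?_⟩
  have hρ : (0 : ℝ) ≤ ρ := by
    have : 0 < (lam : ℝ) / U := by positivity
    linarith
  filter_upwards [hω2 lam U V ρ ε hlam hU hUV hε h,
    hit_step (S := A ω) (lam := lam) (U := U) (V := V) (ρ := ρ) (ε := ε) hlam hU hρ hε] with n h3 h4
  exact h4 h3

variable {S : Set ℕ}

/-- **Long windows are hit, uniformly in the base.** -/
theorem Good.hit (hS : Good S) {lam V : ℝ} (hV : 0 < V) (h : V ^ 2 < lam) :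
    ∀ᶠ n : ℕ in atTop, ∀ y : ℝ, 0 ≤ y → y ≤ V → ¬ Free S (Real.exp (n * y)) (lam * (n : ℝ) ^ 2) := by
  obtain ⟨l, hl1, hl2⟩ := exists_rat_btwn h
  have hVs : V < √(l : ℝ) := by
    rw [Real.lt_sqrt hV.le]
    exact hl1
  obtain ⟨W, hW1, hW2⟩ := exists_rat_btwn hVs
  have hW0 : (0 : ℝ) < W := by linarith
  have hWl : (W : ℝ) ^ 2 < l := by
    rw [Real.lt_sqrt hW0.le] at hW2
    exact hW2
  have hl0 : (0 : ℝ) < l := lt_of_le_of_lt (sq_nonneg _) hWl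
  have hneg : (W : ℝ) < l / W := by
    rw [lt_div_iff₀ hW0]
    nlinarith
  obtain ⟨δ, hδ1, hδ2⟩ := exists_rat_btwn (show (0 : ℝ) < l / W - W by linarith)
  have h1 := hit_of_few (S := S) (lam := l) (V := W) (t := W - l / W + δ) hl0 (by linarith)
    (hS.start l W δ hl0 hW0 hδ1)
  filter_upwards [h1] with n hn y hy1 hy2 hf
  exact hn y hy1 (by linarith) (hf.mono (mul_le_mul_of_nonneg_right hl2.le (by positivity)))

/-- **The upper bound for the dimension.** -/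
theorem Good.dim_le (hS : Good S) {lam v : ℝ} (hlam : 0 < lam) (hv : 0 < v) (hlv : lam < v ^ 2) (u : ℝ) :
    dimH (YS S (fun n => lam * (n : ℝ) ^ 2) ∩ Set.Ioo u v) ≤ ENNReal.ofReal (1 - lam / v ^ 2) := by
  have hD0 : 0 < 1 - lam / v ^ 2 := by
    have : lam / v ^ 2 < 1 := by
      rw [div_lt_one (by positivity)]
      exact hlv
    linarith
  refine le_of_forall_gt_imp_ge_of_dense fun b hb => ?_
  by_cases hbtop : b = ⊤
  · rw [hbtop]; exact le_top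
  obtain ⟨s, hs⟩ : ∃ s : ℝ, s = b.toReal := ⟨_, rfl⟩
  have hbs : b = ENNReal.ofReal s := by rw [hs, ENNReal.ofReal_toReal hbtop]
  have hs0 : 0 ≤ s := by rw [hs]; exact ENNReal.toReal_nonneg
  have hDs : 1 - lam / v ^ 2 < s := by
    rw [hbs] at hb
    exact (ENNReal.ofReal_lt_ofReal_iff_of_nonneg hD0.le).1 hb
  rw [hbs]
  -- countable family
  have hsub : YS S (fun n => lam * (n : ℝ) ^ 2) ∩ Set.Ioo u v ⊆
      ⋃ p : {p : ℚ × ℚ × ℚ × ℚ // (0 : ℝ) < p.1 ∧ (p.1 : ℝ) < lam ∧ (0 : ℝ) < p.2.1 ∧ (p.2.1 : ℝ) < p.2.2.1 ∧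
        (0 : ℝ) < p.2.2.2 ∧ (p.2.2.1 : ℝ) - p.1 / p.2.2.1 + p.2.2.2 < p.2.1 * s},
        (YS S (fun n => (p.1.1 : ℝ) * (n : ℝ) ^ 2) ∩ Set.Icc (p.1.2.1 : ℝ) p.1.2.2.1) := by
    rintro y ⟨hy, -, hyv⟩
    have hy0 : 0 < y := hy.1
    have hcont : ContinuousAt (fun p : ℝ × ℝ × ℝ × ℝ => p.2.2.1 - p.1 / p.2.2.1 + p.2.2.2 - p.2.1 * s)
        (lam, y, y, 0) := by
      have h2 : (lam, y, y, (0 : ℝ)).2.2.1 ≠ 0 := hy0.ne'
      fun_prop (disch := assumption)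
    have hneg : (fun p : ℝ × ℝ × ℝ × ℝ => p.2.2.1 - p.1 / p.2.2.1 + p.2.2.2 - p.2.1 * s) (lam, y, y, 0) < 0 := by
      show y - lam / y + 0 - y * s < 0
      have e1 : y - lam / y = y * (1 - lam / y ^ 2) := by
        field_simp
      have e2 : lam / v ^ 2 ≤ lam / y ^ 2 := by
        apply div_le_div_of_nonneg_left hlam.le (by positivity)
        exact pow_le_pow_left₀ hy0.le hyv.le 2
      have e3 : y * (1 - lam / y ^ 2) < y * s := mul_lt_mul_of_pos_left (by linarith) hy0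
      linarith
    have hev := hcont.eventually_lt_const hneg
    rw [Metric.eventually_nhds_iff] at hev
    obtain ⟨r, hr, hball⟩ := hev
    obtain ⟨l, hl1, hl2⟩ := exists_rat_btwn (show max (lam - r) 0 < lam from max_lt (by linarith) hlam)
    obtain ⟨U, hU1, hU2⟩ := exists_rat_btwn (show max (y - r) 0 < y from max_lt (by linarith) hy0)
    obtain ⟨W, hW1, hW2⟩ := exists_rat_btwn (show y < y + r by linarith)
    obtain ⟨δ, hδ1, hδ2⟩ := exists_rat_btwn hr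
    rw [max_lt_iff] at hl1 hU1
    have h3 : (W : ℝ) - l / W + δ - U * s < 0 := by
      refine hball (y := ((l : ℝ), (U : ℝ), (W : ℝ), (δ : ℝ))) ?_
      rw [Prod.dist_eq, Prod.dist_eq, Prod.dist_eq, max_lt_iff, max_lt_iff, max_lt_iff, Real.dist_eq,
        Real.dist_eq, Real.dist_eq, Real.dist_eq]
      simp only [abs_lt]
      refine ⟨⟨?_, ?_⟩, ⟨?_, ?_⟩, ⟨?_, ?_⟩, ⟨?_, ?_⟩⟩ <;> linarith [hl1.1, hU1.1]
    rw [Set.mem_iUnion]
    refine ⟨⟨(l, U, W, δ), hl1.2, hl2, hU1.2, by linarith, hδ1, by linarith⟩, ?_, ?_, ?_⟩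
    · refine YS_anti (Eventually.of_forall fun n => ?_) hy
      exact mul_le_mul_of_nonneg_right hl2.le (by positivity)
    · exact hU2.le
    · exact hW1.le
  refine (dimH_mono hsub).trans ?_
  rw [dimH_iUnion]
  refine iSup_le ?_
  rintro ⟨⟨l, U, W, δ⟩, h1, h2, h3, h4, h5, h6⟩
  refine dimH_YS_le (t := (W : ℝ) - l / W + δ) h1 h3 hs0 ?_ (hS.start l W δ h1 (by
    simp only at h3 h4
    linarith) h5)
  simpa using h6

/-- a rapidly increasing sequence of scales -/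
theorem exists_scales_exp {p ε r : ℝ} (hε : 0 < ε) (hr : 0 < r) (i0 : ℕ) :
    ∃ φ : ℕ → ℕ, StrictMono φ ∧ (∀ k, i0 ≤ φ k) ∧ 16 ≤ r * (Real.exp (φ 0 : ℝ)) ^ ε ∧
      ∀ k, 16 * (Real.exp (φ k : ℝ)) ^ p ≤ (Real.exp (φ (k + 1) : ℝ)) ^ ε := by
  have hPt : Tendsto (fun i : ℕ => (Real.exp (i : ℝ)) ^ ε) atTop atTop :=
    (tendsto_rpow_atTop hε).comp (Real.tendsto_exp_atTop.comp tn)
  have h1 : ∀ (N : ℕ) (R : ℝ), ∃ n, N < n ∧ R ≤ (Real.exp (n : ℝ)) ^ ε := by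
    intro N R
    obtain ⟨n, hn1, hn2⟩ := ((eventually_gt_atTop N).and (hPt.eventually_ge_atTop R)).exists
    exact ⟨n, hn1, hn2⟩
  choose g hg1 hg2 using h1
  obtain ⟨φ, hφ⟩ : ∃ φ : ℕ → ℕ, φ = fun k => Nat.rec (g i0 (16 / r))
    (fun _ n => g n (16 * (Real.exp (n : ℝ)) ^ p)) k := ⟨_, rfl⟩
  have hφ0 : φ 0 = g i0 (16 / r) := by rw [hφ]; rfl
  have hφs : ∀ k, φ (k + 1) = g (φ k) (16 * (Real.exp (φ k : ℝ)) ^ p) := fun k => by rw [hφ]
  have hmono : StrictMono φ := strictMono_nat_of_lt_succ (fun k => by rw [hφs]; exact hg1 _ _)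
  refine ⟨φ, hmono, ?_, ?_, ?_⟩
  · intro k
    have h2 : i0 < φ 0 := by rw [hφ0]; exact hg1 _ _
    have := hmono.monotone (Nat.zero_le k)
    omega
  · have h2 := hg2 i0 (16 / r)
    rw [← hφ0, div_le_iff₀ hr] at h2
    linarith
  · intro k
    rw [hφs]; exact hg2 _ _

/-- **The lower bound for the dimension.** -/
theorem Good.le_dim (hS : Good S) {lam u v : ℝ} (hlam : 0 < lam) (hv : 0 < v) (hlv : lam < v ^ 2) (huv : u < v) :
    ENNReal.ofReal (1 - lam / v ^ 2) ≤ dimH (YS S (fun n => lam * (n : ℝ) ^ 2) ∩ Set.Ioo u v) := by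
  refine le_of_forall_lt fun b hb => ?_
  obtain ⟨s', hs1, hs2⟩ := exists_between hb
  have hs'top : s' ≠ ⊤ := ne_top_of_lt hs2
  obtain ⟨s, hs⟩ : ∃ s : ℝ, s = s'.toReal := ⟨_, rfl⟩
  have hss : s' = ENNReal.ofReal s := by
    rw [hs, ENNReal.ofReal_toReal hs'top]
  have hs0 : 0 ≤ s := by rw [hs]; exact ENNReal.toReal_nonneg
  have hsD : s < 1 - lam / v ^ 2 := by
    rw [hss] at hs2
    exact (ENNReal.ofReal_lt_ofReal_iff_of_nonneg hs0).1 hs2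
  refine lt_of_lt_of_le hs1 ?_
  rw [hss]
  -- the parameters
  have hcont1 : ContinuousAt (fun p : ℝ × ℝ × ℝ × ℝ => s * (p.2.2.1 + p.2.2.2) -
      (p.2.1 - p.1 / p.2.1 - 4 * p.2.2.2)) (lam, v, v, 0) := by
    have h2 : (lam, v, v, (0 : ℝ)).2.1 ≠ 0 := hv.ne'
    fun_prop (disch := assumption)
  have hneg1 : (fun p : ℝ × ℝ × ℝ × ℝ => s * (p.2.2.1 + p.2.2.2) -
      (p.2.1 - p.1 / p.2.1 - 4 * p.2.2.2)) (lam, v, v, 0) < 0 := by
    show s * (v + 0) - (v - lam / v - 4 * 0) < 0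
    have e1 : v - lam / v = v * (1 - lam / v ^ 2) := by
      field_simp
    have e2 : v * s < v * (1 - lam / v ^ 2) := mul_lt_mul_of_pos_left hsD hv
    linarith
  have hcont2 : ContinuousAt (fun p : ℝ × ℝ × ℝ × ℝ => p.1 / p.2.1 + 4 * p.2.2.2 - p.2.1) (lam, v, v, 0) := by
    have h2 : (lam, v, v, (0 : ℝ)).2.1 ≠ 0 := hv.ne'
    fun_prop (disch := assumption)
  have hneg2 : (fun p : ℝ × ℝ × ℝ × ℝ => p.1 / p.2.1 + 4 * p.2.2.2 - p.2.1) (lam, v, v, 0) < 0 := by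
    show lam / v + 4 * 0 - v < 0
    have : lam / v < v := by
      rw [div_lt_iff₀ hv]
      nlinarith
    linarith
  have hev := (hcont1.eventually_lt_const hneg1).and (hcont2.eventually_lt_const hneg2)
  rw [Metric.eventually_nhds_iff] at hev
  obtain ⟨r, hr, hball⟩ := hev
  obtain ⟨c1, hc1, hc2⟩ := exists_rat_btwn (show lam < lam + r by linarith)
  obtain ⟨u0, hu1, hu2⟩ := exists_rat_btwn (show max (v - r) (max u 0) < v from
    max_lt (by linarith) (max_lt huv hv))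
  obtain ⟨v0, hv2, hv3⟩ := exists_rat_btwn hu2
  obtain ⟨ε, hε1, hε2⟩ := exists_rat_btwn hr
  rw [max_lt_iff, max_lt_iff] at hu1
  have h3 : s * ((v0 : ℝ) + ε) - (u0 - c1 / u0 - 4 * ε) < 0 ∧ (c1 : ℝ) / u0 + 4 * ε - u0 < 0 := by
    refine hball (y := ((c1 : ℝ), (u0 : ℝ), (v0 : ℝ), (ε : ℝ))) ?_
    rw [Prod.dist_eq, Prod.dist_eq, Prod.dist_eq, max_lt_iff, max_lt_iff, max_lt_iff, Real.dist_eq,
      Real.dist_eq, Real.dist_eq, Real.dist_eq]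
    simp only [abs_lt]
    refine ⟨⟨?_, ?_⟩, ⟨?_, ?_⟩, ⟨?_, ?_⟩, ⟨?_, ?_⟩⟩ <;> linarith [hu1.1]
  obtain ⟨h3a, h3b⟩ := h3
  obtain ⟨g, hg⟩ : ∃ g : ℚ, g = c1 / u0 + 2 * ε := ⟨_, rfl⟩
  have hgr : (g : ℝ) = c1 / u0 + 2 * ε := by
    rw [hg]
    push_cast
    ring
  have hu00 : (0 : ℝ) < u0 := hu1.2.2
  have hc10 : (0 : ℝ) < c1 := by linarith
  have hcu : (0 : ℝ) < c1 / u0 := by positivity
  have hhit := hS.hits c1 u0 v0 g ε hc10 hu00 hv2 hε1 (by rw [hgr])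
  obtain ⟨i0, hi0⟩ := eventually_atTop.1 hhit
  obtain ⟨β, hβ⟩ : ∃ β : ℝ, β = (u0 : ℝ) - g - ε := ⟨_, rfl⟩
  rw [← hβ] at hi0
  have hβε : β - ε = u0 - c1 / u0 - 4 * ε := by
    rw [hβ, hgr]
    ring
  have hp : (0 : ℝ) < v0 + ε := by linarith
  obtain ⟨φ, hφ1, hφ2, hφ3, hφ4⟩ := exists_scales_exp (p := (v0 : ℝ) + ε) hε1 (show (0 : ℝ) < v0 - u0 by linarith) i0
  have hyt : Tendsto (fun k => Real.exp (φ k : ℝ)) atTop atTop :=
    Real.tendsto_exp_atTop.comp (tn.comp hφ1.tendsto_atTop)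
  have hpow : ∀ (k : ℕ) (q : ℝ), (Real.exp (φ k : ℝ)) ^ (-q) = Real.exp (-(φ k * q)) := by
    intro k q
    rw [← Real.exp_mul]
    congr 1
    ring
  have hres := le_dimH_of_scales (a := u0) (b := v0) (p := v0 + ε) (β := β) (ε := ε) hv2 hp
    (by linarith) (by linarith) (fun k => Real.exp (φ k : ℝ))
    (fun k => Real.one_le_exp (Nat.cast_nonneg _)) hφ3 hφ4 hyt (fun k => FY S c1 (φ k))
    (fun k w hw1 hw2 => by
      rw [hpow] at hw2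
      rw [hpow, hpow]
      exact hi0 (φ k) (hφ2 k) w hw1 hw2)
  have hsβ : s ≤ (β - ε) / (v0 + ε) := by
    rw [le_div_iff₀ hp]
    linarith
  refine (ENNReal.ofReal_le_ofReal hsβ).trans (hres.trans (dimH_mono ?_))
  rintro θ ⟨h4, h5, h6⟩
  refine ⟨YS_anti (L := fun n => (c1 : ℝ) * (n : ℝ) ^ 2) (Eventually.of_forall fun n =>
    mul_le_mul_of_nonneg_right hc1.le (by positivity)) ⟨by linarith, ?_⟩, ?_, ?_⟩
  · rw [frequently_atTop]
    intro a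
    exact ⟨φ a, hφ1.id_le a, h6 a⟩
  · linarith [hu1.2.1]
  · linarith

/-- short open intervals contain open intervals of bases with a free window -/
theorem Good.open_hit (hS : Good S) {lam a b : ℝ} (hlam : 0 < lam) (ha : 0 ≤ a) (hla : lam ≤ a ^ 2) (hab : a < b) (N : ℕ) :
    ∃ n, N ≤ n ∧ ∃ w w' : ℝ, a < w ∧ w < w' ∧ w' < b ∧ Set.Icc w w' ⊆ FY S lam n := by
  obtain ⟨U, hU1, hU2⟩ := exists_rat_btwn hab
  obtain ⟨V, hV1, hV2⟩ := exists_rat_btwn hU2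
  have hU0 : (0 : ℝ) < U := by linarith
  have hlU : lam < (U : ℝ) ^ 2 := by nlinarith
  obtain ⟨l, hl1, hl2⟩ := exists_rat_btwn hlU
  have hl0 : (0 : ℝ) < l := by linarith
  have hlU' : (l : ℝ) / U < U := by
    rw [div_lt_iff₀ hU0]
    nlinarith
  obtain ⟨ε, hε1, hε2⟩ := exists_rat_btwn (show (0 : ℝ) < (U - l / U) / 4 by linarith)
  obtain ⟨g, hg⟩ : ∃ g : ℚ, g = l / U + 2 * ε := ⟨_, rfl⟩
  have hgr : (g : ℝ) = l / U + 2 * ε := by
    rw [hg]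
    push_cast
    ring
  have hβ : 0 < (U : ℝ) - g - ε := by
    rw [hgr]
    linarith
  have hhit := hS.hits l U V g ε hl0 hU0 hV1 hε1 (by rw [hgr])
  have hsmall := ev_exp hβ (3 / ((V : ℝ) - U))
  obtain ⟨n, ⟨hn1, hn2⟩, hn3⟩ := ((hhit.and hsmall).and (eventually_ge_atTop N)).exists
  have hUV : 0 < (V : ℝ) - U := by linarith
  have h5 : (U : ℝ) + 3 * Real.exp (-(n * ((U : ℝ) - g - ε))) ≤ V := by
    rw [div_le_iff₀ hUV] at hn2
    rw [Real.exp_neg, ← div_eq_mul_inv]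
    have : 3 / Real.exp (n * ((U : ℝ) - g - ε)) ≤ V - U := by
      rw [div_le_iff₀ (Real.exp_pos _)]
      linarith
    linarith
  obtain ⟨w', h6, h7, h8⟩ := hn1 U le_rfl h5
  have h9 := Real.exp_pos (-(n * ((V : ℝ) + ε)))
  refine ⟨n, hn3, w', w' + Real.exp (-(n * ((V : ℝ) + ε))), by linarith, by linarith, by linarith, ?_⟩
  intro y hy
  exact Free.mono (h8 hy) (mul_le_mul_of_nonneg_right hl1.le (by positivity))

end Pool.Agent.Q166.EB
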