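import Pool.Agent.Q166.EB.C
import Pool.Agent.Q166.EB.CB
import Pool.Agent.Q120.NC.Final

/-!
# Windows above the powers of all real bases: the windows `(x, x + κ (log x) ^ 2)`
-/

set_option autoImplicit false

namespace Pool.Agent.Q166.EB

open Finset MeasureTheory Filter Topology Pool.Agent.Q120.ET Pool.Agent.Q120.MF
open scoped ENNReal NNReal

/-- The exceptional bases for the lengths `H`: the real numbers `b > 1` for which infinitely many of the
windows `(x, x + H x)`, `x = b ^ n`, contain no element of `S`. -/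
def Exc (S : Set ℕ) (H : ℝ → ℝ) : Set ℝ :=
  {b | 1 < b ∧ ∃ᶠ n : ℕ in atTop, ∀ m ∈ S, ¬ (b ^ n < (m : ℝ) ∧ (m : ℝ) < b ^ n + H (b ^ n))}

variable {S : Set ℕ}

theorem exp_mul_log {b : ℝ} (hb : 0 < b) (n : ℕ) : Real.exp (n * Real.log b) = b ^ n := by
  rw [Real.exp_nat_mul, Real.exp_log hb]

/-- the logarithms of the exceptional bases -/
def YE (S : Set ℕ) (k : ℝ) : Set ℝ := {y | 0 < y ∧ ∃ᶠ n : ℕ in atTop, Free S (Real.exp (n * y)) (k * (n * y) ^ 2)}

theorem mem_exc_iff {k : ℝ} {b : ℝ} (hb : 1 < b) : b ∈ Exc S (fun x => k * Real.log x ^ 2) ↔ Real.log b ∈ YE S k := by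
  unfold Exc YE Free
  simp only [Set.mem_ofPred_eq, exp_mul_log (show 0 < b by linarith), Real.log_pow]
  constructor
  · rintro ⟨_, h⟩
    exact ⟨Real.log_pos hb, h⟩
  · rintro ⟨_, h⟩
    exact ⟨hb, h⟩

theorem Exc_anti {H H' : ℝ → ℝ} (h : ∀ᶠ x in atTop, H' x ≤ H x) : Exc S H ⊆ Exc S H' := by
  rintro b ⟨h1, h2⟩
  have h3 : Tendsto (fun n : ℕ => b ^ n) atTop atTop := tendsto_pow_atTop_atTop_of_one_lt h1
  exact ⟨h1, (h2.and_eventually (h3.eventually h)).mono fun n hn m hm hcon =>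
    hn.1 m hm ⟨hcon.1, by linarith [hcon.2, hn.2]⟩⟩

theorem dimH_exp_image {E : Set ℝ} {V : ℝ} (h1 : ∀ y ∈ E, 0 ≤ y) (h2 : ∀ y ∈ E, y ≤ V) :
    dimH (Real.exp '' E) = dimH E := by
  apply le_antisymm
  · have hL : LipschitzOnWith (Real.exp V).toNNReal Real.exp (Set.Iic V) := by
      apply (convex_Iic V).lipschitzOnWith_of_nnnorm_deriv_le (fun x _ => Real.differentiableAt_exp)
      intro x hx
      rw [Real.deriv_exp, ← NNReal.coe_le_coe, coe_nnnorm, Real.norm_of_nonneg (Real.exp_pos _).le,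
        Real.coe_toNNReal _ (Real.exp_pos _).le]
      exact Real.exp_le_exp.2 hx
    exact (hL.mono (fun y hy => h2 y hy)).dimH_image_le
  · have hL : LipschitzOnWith 1 Real.log (Set.Ici 1) := by
      apply (convex_Ici (1 : ℝ)).lipschitzOnWith_of_nnnorm_deriv_le (fun x hx => by
        rw [Set.mem_Ici] at hx
        exact Real.differentiableAt_log (by linarith))
      intro x hx
      rw [Set.mem_Ici] at hx
      rw [Real.deriv_log, ← NNReal.coe_le_coe, coe_nnnorm, Real.norm_of_nonneg (by positivity)]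
      exact inv_le_one_of_one_le₀ hx
    have h3 : E = Real.log '' (Real.exp '' E) := by
      rw [← Set.image_comp]
      have : (Real.log ∘ Real.exp) = id := by
        funext y
        simp
      rw [this, Set.image_id]
    conv_lhs => rw [h3]
    refine (hL.mono ?_).dimH_image_le
    rintro _ ⟨y, hy, rfl⟩
    exact Real.one_le_exp (h1 y hy)

theorem exc_inter {k : ℝ} {u v : ℝ} (hv : 1 < v) :
    Exc S (fun x => k * Real.log x ^ 2) ∩ Set.Ioo u v =
      Real.exp '' (YE S k ∩ Set.Ioo (Real.log (max u 1)) (Real.log v)) := by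
  have hm : 0 < max u 1 := lt_of_lt_of_le one_pos (le_max_right _ _)
  ext b
  constructor
  · rintro ⟨h1, h2, h3⟩
    have hb1 : 1 < b := h1.1
    refine ⟨Real.log b, ⟨(mem_exc_iff hb1).1 h1, ?_, ?_⟩, Real.exp_log (by linarith)⟩
    · exact Real.log_lt_log hm (max_lt h2 hb1)
    · exact Real.log_lt_log (by linarith) h3
  · rintro ⟨y, ⟨h1, h2, h3⟩, rfl⟩
    have hy0 : 0 < y := h1.1
    have hb1 : 1 < Real.exp y := by
      rw [Real.one_lt_exp_iff]
      exact hy0
    refine ⟨(mem_exc_iff hb1).2 (by rw [Real.log_exp]; exact h1), ?_, ?_⟩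
    · rw [Real.log_lt_iff_lt_exp hm] at h2
      exact lt_of_le_of_lt (le_max_left _ _) h2
    · rw [Real.lt_log_iff_exp_lt (by linarith)] at h3
      exact h3

/-- **The upper bound for the dimension.** -/
theorem Good.dimE_le (hS : Good S) {k : ℝ} (hk : 0 < k) (hk1 : k ≤ 1) (u v : ℝ) :
    dimH (YE S k ∩ Set.Ioo u v) ≤ ENNReal.ofReal (1 - k) := by
  refine le_of_forall_gt_imp_ge_of_dense fun b hb => ?_
  by_cases hbtop : b = ⊤
  · rw [hbtop]; exact le_top
  obtain ⟨s, hs⟩ : ∃ s : ℝ, s = b.toReal := ⟨_, rfl⟩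
  have hbs : b = ENNReal.ofReal s := by rw [hs, ENNReal.ofReal_toReal hbtop]
  have hs0 : 0 ≤ s := by rw [hs]; exact ENNReal.toReal_nonneg
  have hDs : 1 - k < s := by
    rw [hbs] at hb
    exact (ENNReal.ofReal_lt_ofReal_iff_of_nonneg (by linarith)).1 hb
  rw [hbs]
  -- countable family
  have hsub : YE S k ∩ Set.Ioo u v ⊆
      ⋃ p : {p : ℚ × ℚ × ℚ × ℚ // (0 : ℝ) < p.1 ∧ (0 : ℝ) < p.2.1 ∧ (p.2.1 : ℝ) < p.2.2.1 ∧
        (0 : ℝ) < p.2.2.2 ∧ (p.2.2.1 : ℝ) - p.1 / p.2.2.1 + p.2.2.2 < p.2.1 * s},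
        (YS S (fun n => (p.1.1 : ℝ) * (n : ℝ) ^ 2) ∩ Set.Icc (p.1.2.1 : ℝ) p.1.2.2.1) := by
    rintro y ⟨hy, -, -⟩
    have hy0 : 0 < y := hy.1
    have hcont : ContinuousAt (fun p : ℝ × ℝ × ℝ × ℝ => p.2.2.1 - p.1 / p.2.2.1 + p.2.2.2 - p.2.1 * s)
        (k * y ^ 2, y, y, 0) := by
      have h2 : (k * y ^ 2, y, y, (0 : ℝ)).2.2.1 ≠ 0 := hy0.ne'
      fun_prop (disch := assumption)
    have hneg : (fun p : ℝ × ℝ × ℝ × ℝ => p.2.2.1 - p.1 / p.2.2.1 + p.2.2.2 - p.2.1 * s)
        (k * y ^ 2, y, y, 0) < 0 := by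
      show y - k * y ^ 2 / y + 0 - y * s < 0
      have e1 : y - k * y ^ 2 / y = y * (1 - k) := by
        field_simp
      have e3 : y * (1 - k) < y * s := mul_lt_mul_of_pos_left hDs hy0
      linarith
    have hev := hcont.eventually_lt_const hneg
    rw [Metric.eventually_nhds_iff] at hev
    obtain ⟨r, hr, hball⟩ := hev
    have hky : 0 < k * y ^ 2 := by positivity
    obtain ⟨l, hl1, hl2⟩ := exists_rat_btwn (show max (k * y ^ 2 - r) 0 < k * y ^ 2 from max_lt (by linarith) hky)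
    rw [max_lt_iff] at hl1
    -- `U` so near to `y` that `l ≤ k U ^ 2`
    have hsq : √((l : ℝ) / k) < y := by
      rw [Real.sqrt_lt' hy0, div_lt_iff₀ hk]
      linarith
    obtain ⟨U, hU1, hU2⟩ := exists_rat_btwn (show max (y - r) (√((l : ℝ) / k)) < y from max_lt (by linarith) hsq)
    rw [max_lt_iff] at hU1
    have hU0 : (0 : ℝ) < U := lt_of_le_of_lt (Real.sqrt_nonneg _) hU1.2
    have hlU : (l : ℝ) ≤ k * (U : ℝ) ^ 2 := by
      have := (Real.sqrt_lt' hU0).1 hU1.2
      rw [div_lt_iff₀ hk] at this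
      linarith
    obtain ⟨W, hW1, hW2⟩ := exists_rat_btwn (show y < y + r by linarith)
    obtain ⟨δ, hδ1, hδ2⟩ := exists_rat_btwn hr
    have h3 : (W : ℝ) - l / W + δ - U * s < 0 := by
      refine hball (y := ((l : ℝ), (U : ℝ), (W : ℝ), (δ : ℝ))) ?_
      rw [Prod.dist_eq, Prod.dist_eq, Prod.dist_eq, max_lt_iff, max_lt_iff, max_lt_iff, Real.dist_eq,
        Real.dist_eq, Real.dist_eq, Real.dist_eq]
      simp only [abs_lt]
      refine ⟨⟨?_, ?_⟩, ⟨?_, ?_⟩, ⟨?_, ?_⟩, ⟨?_, ?_⟩⟩ <;> linarith [hl1.1, hU1.1]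
    rw [Set.mem_iUnion]
    refine ⟨⟨(l, U, W, δ), hl1.2, hU0, by linarith, hδ1, by linarith⟩, ⟨hy0, ?_⟩, hU2.le, hW1.le⟩
    refine hy.2.mono fun n hn => Free.mono hn ?_
    have e1 : (U : ℝ) ^ 2 ≤ y ^ 2 := pow_le_pow_left₀ hU0.le hU2.le 2
    have e2 : (0 : ℝ) ≤ (n : ℝ) ^ 2 := by positivity
    calc (l : ℝ) * (n : ℝ) ^ 2 ≤ k * (U : ℝ) ^ 2 * (n : ℝ) ^ 2 := mul_le_mul_of_nonneg_right hlU e2
      _ ≤ k * y ^ 2 * (n : ℝ) ^ 2 :=
          mul_le_mul_of_nonneg_right (mul_le_mul_of_nonneg_left e1 hk.le) e2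
      _ = k * (n * y) ^ 2 := by ring
  refine (dimH_mono hsub).trans ?_
  rw [dimH_iUnion]
  refine iSup_le ?_
  rintro ⟨⟨l, U, W, δ⟩, h1, h3, h4, h5, h6⟩
  refine dimH_YS_le (t := (W : ℝ) - l / W + δ) h1 h3 hs0 ?_ (hS.start l W δ h1 (by
    simp only at h3 h4
    linarith) h5)
  simpa using h6

/-- **The dimension.** -/
theorem Good.dimE (hS : Good S) {k u v : ℝ} (hk : 0 < k) (hk1 : k ≤ 1) (hv : 1 < v) (huv : u < v) :
    dimH (Exc S (fun x => k * Real.log x ^ 2) ∩ Set.Ioo u v) = ENNReal.ofReal (1 - k) := by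
  have hV : 0 < Real.log v := Real.log_pos hv
  have hm : 1 ≤ max u 1 := le_max_right _ _
  have hUV : Real.log (max u 1) < Real.log v := Real.log_lt_log (by linarith) (max_lt huv hv)
  rw [exc_inter hv, dimH_exp_image (V := Real.log v)]
  · refine le_antisymm (hS.dimE_le hk hk1 _ _) ?_
    rcases hk1.lt_or_eq with h | h
    · have h1 := hS.le_dim (lam := k * Real.log v ^ 2) (by positivity) hV (by
        have : 0 < Real.log v ^ 2 := by positivity
        nlinarith) hUV
      have e1 : k * Real.log v ^ 2 / Real.log v ^ 2 = k := by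
        field_simp
      rw [e1] at h1
      refine h1.trans (dimH_mono ?_)
      rintro y ⟨⟨h2, h3⟩, h4, h5⟩
      refine ⟨⟨h2, h3.mono fun n hn => Free.mono hn ?_⟩, h4, h5⟩
      have e2 : y ^ 2 ≤ Real.log v ^ 2 := pow_le_pow_left₀ h2.le h5.le 2
      calc k * (n * y) ^ 2 = k * y ^ 2 * (n : ℝ) ^ 2 := by ring
        _ ≤ k * Real.log v ^ 2 * (n : ℝ) ^ 2 :=
            mul_le_mul_of_nonneg_right (mul_le_mul_of_nonneg_left e2 hk.le) (by positivity)
    · rw [h, sub_self, ENNReal.ofReal_zero]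
      exact bot_le
  · rintro y ⟨h1, -⟩
    exact h1.1.le
  · rintro y ⟨-, -, h3⟩
    exact h3.le

/-- **Windows longer than `(log x) ^ 2` are hit**, locally uniformly in the base. -/
theorem Good.hitE (hS : Good S) {k u v : ℝ} (hk : 1 < k) (hu : 1 < u) :
    ∀ᶠ n : ℕ in atTop, ∀ b : ℝ, u ≤ b → b ≤ v →
      ∃ m ∈ S, b ^ n < (m : ℝ) ∧ (m : ℝ) < b ^ n + k * Real.log (b ^ n) ^ 2 := by
  obtain ⟨U, hU⟩ : ∃ U : ℝ, U = Real.log u := ⟨_, rfl⟩
  obtain ⟨V, hV⟩ : ∃ V : ℝ, V = Real.log v := ⟨_, rfl⟩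
  have hU0 : 0 < U := by rw [hU]; exact Real.log_pos hu
  have key : ∀ᶠ n : ℕ in atTop, ∀ y ∈ Set.Icc U V, ¬ Free S (Real.exp (n * y)) (k * (n * y) ^ 2) := by
    refine isCompact_Icc.induction_on (p := fun T : Set ℝ => ∀ᶠ n : ℕ in atTop, ∀ y ∈ T,
      ¬ Free S (Real.exp (n * y)) (k * (n * y) ^ 2)) ?_ ?_ ?_ ?_
    · exact Eventually.of_forall fun n y hy => absurd hy (Set.notMem_empty _)
    · intro s t hst ht
      filter_upwards [ht] with n hn y hy
      exact hn y (hst hy)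
    · intro s t hs ht
      filter_upwards [hs, ht] with n hn1 hn2 y hy
      rcases hy with hy | hy
      · exact hn1 y hy
      · exact hn2 y hy
    · rintro y ⟨hy1, hy2⟩
      have hy0 : 0 < y := by linarith
      -- `V' > y > U'` with `V' ^ 2 < k U' ^ 2`
      have hsk : 1 < √k := by
        rw [Real.lt_sqrt (by norm_num)]
        linarith
      obtain ⟨r, hr1, hr2⟩ := exists_between hsk
      obtain ⟨r', hr'1, hr'2⟩ := exists_between hr1
      have hr0 : 0 < r := by linarith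
      refine ⟨Set.Ioo (y / r') (y * (r / r')), ?_, ?_⟩
      · apply mem_nhdsWithin_of_mem_nhds
        apply Ioo_mem_nhds
        · rw [div_lt_iff₀ (by linarith)]
          nlinarith
        · have : 1 < r / r' := by
            rw [lt_div_iff₀ (by linarith)]
            linarith
          nlinarith
      · have hr'0 : 0 < r' := by linarith
        have h1 := hS.hit (lam := k * (y / r') ^ 2) (V := y * (r / r')) (by positivity) (by
          have e1 : (y * (r / r')) ^ 2 = r ^ 2 * (y / r') ^ 2 := by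
            field_simp
          rw [e1]
          have e2 : r ^ 2 < k := by
            have := Real.sq_sqrt (show 0 ≤ k by linarith)
            nlinarith [Real.sqrt_nonneg k]
          exact mul_lt_mul_of_pos_right e2 (by positivity))
        filter_upwards [h1] with n hn z hz hf
        have hz0 : 0 < z := lt_trans (by positivity) hz.1
        refine hn z hz0.le hz.2.le (Free.mono hf ?_)
        have e3 : (y / r') ^ 2 ≤ z ^ 2 := pow_le_pow_left₀ (by positivity) hz.1.le 2
        calc k * (y / r') ^ 2 * (n : ℝ) ^ 2 ≤ k * z ^ 2 * (n : ℝ) ^ 2 :=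
              mul_le_mul_of_nonneg_right (mul_le_mul_of_nonneg_left e3 (by linarith)) (by positivity)
          _ = k * (n * z) ^ 2 := by ring
  filter_upwards [key] with n hn b hb1 hb2
  have hb0 : 0 < b := by linarith
  have h1 := hn (Real.log b) ⟨by rw [hU]; exact Real.log_le_log (by linarith) hb1,
    by rw [hV]; exact Real.log_le_log hb0 hb2⟩
  rw [exp_mul_log hb0, ← Real.log_pow] at h1
  unfold Free at h1
  push Not at h1
  exact h1

/-- arbitrarily large integers followed by a free window longer than `(log a) ^ 2 + 1` -/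
def Gaps (S : Set ℕ) : Prop := ∀ M : ℕ, ∃ a : ℕ, M ≤ a ∧ ∀ m ∈ S, a < m → (a : ℝ) + (Real.log a ^ 2 + 1) ≤ m

theorem ae_gaps {Ω : Type} [MeasurableSpace Ω] {μ : Measure Ω} [IsProbabilityMeasure μ] {A : Ω → Set ℕ}
    (hA : IsCramer μ A) : ∀ᵐ ω ∂μ, Gaps (A ω) := by
  filter_upwards [Pool.Agent.Q120.NC.count_law hA (show (1 / 2 : ℝ) ≤ 1 by norm_num)] with ω hω M
  have h1 : Tendsto (fun N : ℕ => ((Pool.Agent.Q120.NC.LongGaps (A ω) (1 / 2) N).ncard : ℝ)) atTop atTop := by
    have h2 := hω.pos_mul_atTop (Real.exp_pos _)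
      (Pool.Agent.Q120.NC.prim_tendsto (show (1 / 2 : ℝ) ≤ 1 by norm_num))
    refine h2.congr' ?_
    filter_upwards [(Pool.Agent.Q120.NC.prim_tendsto (show (1 / 2 : ℝ) ≤ 1 by norm_num)).eventually_gt_atTop 0]
      with N hN
    rw [div_mul_cancel₀ _ hN.ne']
  -- large lengths
  have h3 : ∀ᶠ a : ℕ in atTop, Real.log (a : ℝ) ^ 2 + 1 ≤ Pool.Agent.Q120.NC.len (1 / 2) a := by
    have hl : Tendsto (fun n : ℕ => Real.log (n : ℝ)) atTop atTop := Real.tendsto_log_atTop.comp tn
    have hl3 : Tendsto (fun n : ℕ => Real.log (Real.log (Real.log (n : ℝ)))) atTop atTop :=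
      Real.tendsto_log_atTop.comp (Real.tendsto_log_atTop.comp hl)
    filter_upwards [hl.eventually_ge_atTop 2, hl3.eventually_ge_atTop 1] with a ha1 ha2
    unfold Pool.Agent.Q120.NC.len
    nlinarith
  obtain ⟨M1, hM1⟩ := eventually_atTop.1 h3
  obtain ⟨N, hN⟩ := (h1.eventually_gt_atTop ((max M M1 : ℕ) : ℝ)).exists
  by_contra hcon
  push Not at hcon
  have h4 : Pool.Agent.Q120.NC.LongGaps (A ω) (1 / 2) N ⊆ ((range (max M M1) : Finset ℕ) : Set ℕ) := by
    rintro a ⟨-, -, -, h5⟩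
    rw [mem_coe, mem_range]
    by_contra h6
    push Not at h6
    obtain ⟨m, hm, h7, h8⟩ := hcon a ((le_max_left _ _).trans h6)
    have h9 := h5 m hm h7
    have h10 := hM1 a ((le_max_right _ _).trans h6)
    linarith
  have h5 := Set.ncard_le_ncard h4 (Finset.finite_toSet _)
  rw [Set.ncard_coe_finset, card_range] at h5
  have h6 : ((Pool.Agent.Q120.NC.LongGaps (A ω) (1 / 2) N).ncard : ℝ) ≤ ((max M M1 : ℕ) : ℝ) := by exact_mod_cast h5
  linarith

/-- the window after a long gap is free -/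
theorem free_near {a : ℕ} (ha : 16 ≤ a) (h : ∀ m ∈ S, a < m → (a : ℝ) + (Real.log a ^ 2 + 1) ≤ m) {x : ℝ}
    (h1 : (a : ℝ) < x) (h2 : x < a + 1 / 2) : ∀ m ∈ S, ¬ (x < (m : ℝ) ∧ (m : ℝ) < x + Real.log x ^ 2) := by
  rintro m hm ⟨h3, h4⟩
  have ha0 : (16 : ℝ) ≤ a := by exact_mod_cast ha
  have h5 : a < m := by
    have : (a : ℝ) < m := by linarith
    exact_mod_cast this
  have h6 := h m hm h5
  -- `log x ^ 2 ≤ log a ^ 2 + 1 / 2`
  have h7 : Real.log x ≤ Real.log a + 1 / (2 * a) := by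
    have e1 : Real.log x ≤ Real.log (a * (1 + 1 / (2 * a))) := by
      apply Real.log_le_log (by linarith)
      have : (a : ℝ) * (1 + 1 / (2 * a)) = a + 1 / 2 := by
        field_simp
      rw [this]
      exact h2.le
    rw [Real.log_mul (by linarith) (by positivity)] at e1
    have e2 := Real.log_le_sub_one_of_pos (show 0 < 1 + 1 / (2 * (a : ℝ)) by positivity)
    linarith
  have h8 : Real.log (a : ℝ) ≤ a / 4 := by
    -- `log a = 2 log √a ≤ ...`; use `log (a / 8) ≤ a / 8 - 1` and `log 8 ≤ 3`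
    have e1 := Real.log_le_sub_one_of_pos (show 0 < (a : ℝ) / 8 by positivity)
    rw [Real.log_div (by linarith) (by norm_num)] at e1
    have e2 : Real.log 8 ≤ 2.1 := by
      have : (8 : ℝ) = 2 ^ 3 := by norm_num
      rw [this, Real.log_pow]
      have := Real.log_two_lt_d9
      push_cast
      linarith
    linarith
  have h9 : 0 ≤ Real.log x := Real.log_nonneg (by linarith)
  have h10 : 0 ≤ Real.log (a : ℝ) := Real.log_nonneg (by linarith)
  have h11 : Real.log x ^ 2 ≤ Real.log a ^ 2 + 1 / 2 := by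
    have e1 : Real.log x ^ 2 ≤ (Real.log a + 1 / (2 * a)) ^ 2 := pow_le_pow_left₀ h9 h7 2
    have e2 : (Real.log (a : ℝ) + 1 / (2 * a)) ^ 2 = Real.log a ^ 2 + Real.log a / a + 1 / (4 * a ^ 2) := by
      field_simp
      ring
    have e3 : Real.log (a : ℝ) / a ≤ 1 / 4 := by
      rw [div_le_iff₀ (by linarith)]
      linarith
    have e4 : 1 / (4 * (a : ℝ) ^ 2) ≤ 1 / 4 := by
      apply one_div_le_one_div_of_le (by norm_num)
      nlinarith
    linarith
  linarith

/-- **Generic bases.** -/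
theorem Gaps.generic (hS : Gaps S) : ∀ᶠ b : ℝ in residual ℝ, 1 < b → b ∈ Exc S (fun x => 1 * Real.log x ^ 2) := by
  have h1 : ∀ N : ℕ, ∀ᶠ b : ℝ in residual ℝ, 1 < b → ∃ n, N ≤ n ∧
      ∀ m ∈ S, ¬ (b ^ n < (m : ℝ) ∧ (m : ℝ) < b ^ n + 1 * Real.log (b ^ n) ^ 2) := by
    intro N
    obtain ⟨G, hG⟩ : ∃ G : Set ℝ, G = Set.Iio (1 : ℝ) ∪
        ⋃ (n : ℕ) (_ : N ≤ n) (a : ℕ) (_ : 16 ≤ a ∧ ∀ m ∈ S, a < m → (a : ℝ) + (Real.log a ^ 2 + 1) ≤ m),
          {b : ℝ | 1 < b ∧ (a : ℝ) < b ^ n ∧ b ^ n < a + 1 / 2} := ⟨_, rfl⟩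
    have hGo : IsOpen G := by
      rw [hG]
      refine isOpen_Iio.union ?_
      refine isOpen_iUnion fun n => isOpen_iUnion fun _ => isOpen_iUnion fun a => isOpen_iUnion fun _ => ?_
      have e1 : Continuous fun b : ℝ => b ^ n := continuous_pow n
      exact (isOpen_lt continuous_const continuous_id).inter
        ((isOpen_lt continuous_const e1).inter (isOpen_lt e1 continuous_const))
    have hGd : Dense G := by
      rw [Metric.dense_iff]
      intro b r hr
      by_cases hb : b < 1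
      · refine ⟨b, Metric.mem_ball_self hr, ?_⟩
        rw [hG]
        exact Or.inl hb
      · push Not at hb
        -- `b < b1 < b2 < b + r`
        obtain ⟨b1, hb1⟩ : ∃ b1 : ℝ, b1 = b + r / 4 := ⟨_, rfl⟩
        obtain ⟨b2, hb2⟩ : ∃ b2 : ℝ, b2 = b + r / 2 := ⟨_, rfl⟩
        have h11 : 1 < b1 := by linarith
        have h12 : b1 < b2 := by linarith
        have hl1 : 0 < Real.log b1 := Real.log_pos h11
        have hl12 : Real.log b1 < Real.log b2 := Real.log_lt_log (by linarith) h12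
        have hl2 : 0 < Real.log b2 := by linarith
        obtain ⟨D, hD⟩ : ∃ D : ℝ, D = 1 / Real.log b1 - 1 / Real.log b2 := ⟨_, rfl⟩
        have hD0 : 0 < D := by
          rw [hD, sub_pos]
          exact one_div_lt_one_div_of_lt hl1 hl12
        -- a long gap
        have hlt : Tendsto (fun a : ℕ => Real.log (a : ℝ)) atTop atTop := Real.tendsto_log_atTop.comp tn
        obtain ⟨M, hM⟩ := eventually_atTop.1 ((hlt.eventually_ge_atTop (2 / D)).and
          ((hlt.eventually_ge_atTop ((N : ℝ) * Real.log b2)).and (eventually_ge_atTop 16)))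
        obtain ⟨a, ha, hgap⟩ := hS M
        obtain ⟨e1, e2, e3⟩ := hM a ha
        have ha8 : (16 : ℝ) ≤ a := by exact_mod_cast e3
        obtain ⟨La, hLa⟩ : ∃ La : ℝ, La = Real.log ((a : ℝ) + 1 / 4) := ⟨_, rfl⟩
        have hLa1 : Real.log (a : ℝ) ≤ La := by
          rw [hLa]
          exact Real.log_le_log (by linarith) (by linarith)
        have hla : 0 < La := by
          rw [hLa]
          exact Real.log_pos (by linarith)
        -- the exponent
        obtain ⟨n, hn⟩ : ∃ n : ℕ, n = ⌊La / Real.log b2⌋₊ + 1 := ⟨_, rfl⟩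
        have hn1 : La / Real.log b2 < n := by
          rw [hn]
          push_cast
          exact Nat.lt_floor_add_one _
        have hn2 : (n : ℝ) ≤ La / Real.log b2 + 1 := by
          rw [hn]
          push_cast
          have := Nat.floor_le (show 0 ≤ La / Real.log b2 by positivity)
          linarith
        have hn3 : (n : ℝ) < La / Real.log b1 := by
          have e4 : La / Real.log b1 = La / Real.log b2 + La * D := by
            rw [hD]
            ring
          rw [div_le_iff₀ hD0] at e1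
          have e5 := mul_le_mul_of_nonneg_right hLa1 hD0.le
          rw [e4]
          linarith
        have hnN : N ≤ n := by
          have : (N : ℝ) < n := by
            refine lt_of_le_of_lt ?_ hn1
            rw [le_div_iff₀ hl2]
            linarith
          exact_mod_cast this.le
        have hn0 : (0 : ℝ) < n := lt_of_le_of_lt (by positivity) hn1
        have hn0' : n ≠ 0 := by
          rintro rfl
          simp at hn0
        -- the base
        obtain ⟨c, hc⟩ : ∃ c : ℝ, c = ((a : ℝ) + 1 / 4) ^ ((n : ℝ)⁻¹) := ⟨_, rfl⟩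
        have hc0 : 0 < c := by rw [hc]; positivity
        have hcn : c ^ n = a + 1 / 4 := by
          rw [hc, Real.rpow_inv_natCast_pow (by positivity) hn0']
        have hlc : n * Real.log c = La := by
          rw [hLa, ← hcn, Real.log_pow]
        have hc1 : b1 < c := by
          rw [← Real.log_lt_log_iff (by linarith) hc0]
          rw [lt_div_iff₀ hl1] at hn3
          have e6 : n * Real.log b1 < n * Real.log c := by linarith
          exact lt_of_mul_lt_mul_left e6 hn0.le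
        have hc2 : c < b2 := by
          rw [← Real.log_lt_log_iff hc0 (by linarith)]
          rw [div_lt_iff₀ hl2] at hn1
          have e6 : n * Real.log c < n * Real.log b2 := by linarith
          exact lt_of_mul_lt_mul_left e6 hn0.le
        have hcb : c < b + r := by linarith
        refine ⟨c, ?_, ?_⟩
        · rw [Metric.mem_ball, Real.dist_eq, abs_lt]
          constructor <;> linarith
        · rw [hG]
          right
          simp only [Set.mem_iUnion]
          refine ⟨n, hnN, a, ⟨e3, hgap⟩, by linarith, ?_, ?_⟩ <;> rw [hcn] <;> linarith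
    filter_upwards [residual_of_dense_open hGo hGd] with b hb hb1
    rw [hG] at hb
    rcases hb with hb | hb
    · exact absurd hb (not_lt.2 hb1.le)
    · simp only [Set.mem_iUnion] at hb
      obtain ⟨n, hn, a, ⟨ha1, ha2⟩, -, h3, h4⟩ := hb
      refine ⟨n, hn, ?_⟩
      rw [one_mul]
      exact free_near ha1 ha2 h3 h4
  have h2 : ∀ᶠ b : ℝ in residual ℝ, ∀ N : ℕ, 1 < b → ∃ n, N ≤ n ∧
      ∀ m ∈ S, ¬ (b ^ n < (m : ℝ) ∧ (m : ℝ) < b ^ n + 1 * Real.log (b ^ n) ^ 2) := by
    rw [eventually_countable_forall]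
    exact h1
  filter_upwards [h2] with b hb hb1
  refine ⟨hb1, ?_⟩
  rw [frequently_atTop]
  intro N
  obtain ⟨n, hn, hf⟩ := hb N hb1
  exact ⟨n, hn, hf⟩

theorem Gaps.generic_all (hS : Gaps S) : ∀ᶠ b : ℝ in residual ℝ, 1 < b → ∀ k : ℝ, k ≤ 1 →
    b ∈ Exc S (fun x => k * Real.log x ^ 2) := by
  filter_upwards [hS.generic] with b hb hb1 k hk
  exact Exc_anti (Eventually.of_forall fun x => mul_le_mul_of_nonneg_right hk (sq_nonneg _)) (hb hb1)

end Pool.Agent.Q166.EB
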