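import Pool.Agent.Q166.EB.D

/-!
# Windows above the powers of almost every base
-/

set_option autoImplicit false

namespace Pool.Agent.Q166.EB

open Finset MeasureTheory Filter Topology Pool.Agent.Q120.ET Pool.Agent.Q120.MF Pool.Agent.Q120.PT
open scoped ENNReal NNReal

/-- the lengths `c log x log log x` -/
noncomputable def LL (c x : ℝ) : ℝ := c * (Real.log x * Real.log (Real.log x))

theorem hlog : Tendsto (fun n : ℕ => Real.log (n : ℝ)) atTop atTop := Real.tendsto_log_atTop.comp tn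

/-- a lower bound for the `n`-th prime beyond `n log n` -/
theorem pp_low (K : ℝ) : ∀ᶠ n : ℕ in atTop, (n : ℝ) * (Real.log n + K) ≤ pp n := by
  obtain ⟨C, hC, h⟩ := pp_pnt
  have hl := Real.tendsto_log_atTop.comp tendsto_pp
  have hll : Tendsto (fun n : ℕ => Real.log (Real.log (n : ℝ))) atTop atTop := Real.tendsto_log_atTop.comp hlog
  filter_upwards [pp_lower (δ := 1 / 2) (by norm_num) (by norm_num), hl.eventually_ge_atTop (C + 1),
    hlog.eventually_ge_atTop 1, hll.eventually_ge_atTop (K + 1 + C), eventually_ge_atTop 1] with n h1 h2 h3 h4 h5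
  have hn0 : (0 : ℝ) < n := by exact_mod_cast h5
  simp only [Function.comp_apply] at h2
  obtain ⟨P, hP⟩ : ∃ P : ℝ, P = (pp n : ℝ) := ⟨_, rfl⟩
  have h6 := h n h5
  rw [← hP] at h1 h2 h6 ⊢
  have hP0 : 0 < P := by
    have : 0 < (n : ℝ) * Real.log n := by positivity
    linarith
  have hlP : 0 < Real.log P := by linarith
  -- `n ≤ P / log P + C P / log P ^ 2`
  have h7 := (abs_le.1 h6).2
  have h8 : (n : ℝ) * (Real.log P - C) ≤ P := by
    have e1 : (n : ℝ) ≤ P / Real.log P + C * (P / Real.log P ^ 2) := by linarith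
    have e2 : (n : ℝ) * (Real.log P - C) ≤ (P / Real.log P + C * (P / Real.log P ^ 2)) * (Real.log P - C) :=
      mul_le_mul_of_nonneg_right e1 (by linarith)
    have e3 : (P / Real.log P + C * (P / Real.log P ^ 2)) * (Real.log P - C) = P - C ^ 2 * (P / Real.log P ^ 2) := by
      field_simp
      ring
    have e4 : 0 ≤ C ^ 2 * (P / Real.log P ^ 2) := by positivity
    linarith
  have h9 : Real.log n + Real.log (Real.log n) - 1 ≤ Real.log P := by
    have e1 : (n : ℝ) * Real.log n / 2 ≤ P := by linarith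
    have e2 := Real.log_le_log (by positivity) e1
    rw [Real.log_div (by positivity) (by norm_num), Real.log_mul hn0.ne' (by linarith)] at e2
    have := Real.log_two_lt_d9
    linarith
  refine le_trans ?_ h8
  apply mul_le_mul_of_nonneg_left _ hn0.le
  linarith

/-- the windows are shorter than `log b p_n` -/
theorem ev_one {b : ℝ} (hb : 1 < b) : ∀ᶠ n : ℕ in atTop, LL 1 (b ^ n) ≤ Real.log b * (Nat.nth Nat.Prime (n - 1) : ℝ) := by
  have hlb : 0 < Real.log b := Real.log_pos hb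
  filter_upwards [pp_low (Real.log (Real.log b)), eventually_ge_atTop 1] with n h1 h2
  have hn0 : (0 : ℝ) < n := by exact_mod_cast h2
  unfold LL
  rw [Real.log_pow, one_mul, Real.log_mul hn0.ne' hlb.ne']
  calc n * Real.log b * (Real.log n + Real.log (Real.log b)) =
        Real.log b * (n * (Real.log n + Real.log (Real.log b))) := by ring
    _ ≤ _ := mul_le_mul_of_nonneg_left h1 hlb.le

/-- the windows are longer than `c' p_n` for `c' < c log b` -/
theorem ev_big {b c c' : ℝ} (hb : 1 < b) (hc' : 0 < c') (h : c' < c * Real.log b) :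
    ∀ᶠ n : ℕ in atTop, c' * (Nat.nth Nat.Prime (n - 1) : ℝ) < LL c (b ^ n) := by
  have hlb : 0 < Real.log b := Real.log_pos hb
  obtain ⟨C, hC, hup⟩ := pp_upper
  have hll : Tendsto (fun n : ℕ => Real.log (Real.log (n : ℝ)) / Real.log n) atTop (𝓝 0) :=
    (Real.isLittleO_log_id_atTop.tendsto_div_nhds_zero).comp hlog
  have h1 : Tendsto (fun n : ℕ => c' * (1 + Real.log (Real.log (n : ℝ)) / Real.log n + C / Real.log n)) atTop
      (𝓝 (c' * (1 + 0 + 0))) :=
    ((tendsto_const_nhds.add hll).add (hlog.const_div_atTop C)).const_mul c'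
  have h2 : Tendsto (fun n : ℕ => c * Real.log b * (1 + Real.log (Real.log b) / Real.log n)) atTop
      (𝓝 (c * Real.log b * (1 + 0))) :=
    (tendsto_const_nhds.add (hlog.const_div_atTop _)).const_mul _
  have h3 := h1.eventually_lt h2 (by linarith)
  filter_upwards [h3, hup, eventually_ge_atTop 1, hlog.eventually_ge_atTop 1] with n h4 h5 h6 h7
  have hn0 : (0 : ℝ) < n := by exact_mod_cast h6
  have hl0 : 0 < Real.log (n : ℝ) := by linarith
  unfold LL
  rw [Real.log_pow, Real.log_mul hn0.ne' hlb.ne']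
  have h8 : c' * (pp n : ℝ) ≤ c' * (n * (Real.log n + Real.log (Real.log n) + C)) :=
    mul_le_mul_of_nonneg_left h5 hc'.le
  have h9 : c' * (n * (Real.log n + Real.log (Real.log n) + C)) =
      n * Real.log n * (c' * (1 + Real.log (Real.log (n : ℝ)) / Real.log n + C / Real.log n)) := by
    field_simp
  have h10 : c * (n * Real.log b * (Real.log n + Real.log (Real.log b))) =
      n * Real.log n * (c * Real.log b * (1 + Real.log (Real.log b) / Real.log n)) := by
    field_simp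
  rw [h10]
  refine lt_of_le_of_lt h8 ?_
  rw [h9]
  exact mul_lt_mul_of_pos_left h4 (by positivity)

/-- the bases with an integral power -/
def Bad : Set ℝ := {b | 1 < b ∧ ∃ n m : ℕ, 1 ≤ n ∧ b ^ n = m}

theorem bad_countable : Bad.Countable := by
  have h : Bad ⊆ Set.range fun p : ℕ × ℕ => (p.2 : ℝ) ^ (((p.1 : ℕ) : ℝ)⁻¹) := by
    rintro b ⟨hb, n, m, hn, h⟩
    refine ⟨(n, m), ?_⟩
    show (m : ℝ) ^ ((n : ℝ)⁻¹) = b
    rw [← h, Real.pow_rpow_inv_natCast (by linarith) (by omega)]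
  exact (Set.countable_range _).mono h

/-- one base, the critical length -/
theorem one_base {Ω : Type} [MeasurableSpace Ω] {μ : Measure Ω} [IsProbabilityMeasure μ] {A : Ω → Set ℕ}
    (hA : IsCramer μ A) {b : ℝ} (hb : 1 < b) : ∀ᵐ ω ∂μ, b ∈ Exc (A ω) (LL 1) := by
  filter_upwards [(CB.criticalBase hA hb (Real.log_pos hb)).2 le_rfl] with ω hω
  refine ⟨hb, (hω.and_eventually (ev_one hb)).mono ?_⟩
  rintro n ⟨h1, h2⟩ m hm ⟨h3, h4⟩
  exact h1 m hm ⟨h3.le, by linarith⟩

/-- one base, longer windows -/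
theorem one_base' {Ω : Type} [MeasurableSpace Ω] {μ : Measure Ω} [IsProbabilityMeasure μ] {A : Ω → Set ℕ}
    (hA : IsCramer μ A) {b c : ℝ} (hb : 1 < b) (hbad : b ∉ Bad) (hc : 1 < c) : ∀ᵐ ω ∂μ, b ∉ Exc (A ω) (LL c) := by
  have hlb : 0 < Real.log b := Real.log_pos hb
  obtain ⟨c', h1, h2⟩ := exists_between (show Real.log b < c * Real.log b by nlinarith)
  filter_upwards [(CB.criticalBase hA hb (show 0 < c' by linarith)).1 h1] with ω hω
  rintro ⟨_, h3⟩
  obtain ⟨n, h4, ⟨a, ha, h5, h6⟩, h7, h8⟩ := (h3.and_eventually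
    (hω.and ((ev_big hb (show 0 < c' by linarith) h2).and (eventually_ge_atTop 1)))).exists
  apply h4 a ha
  refine ⟨lt_of_le_of_ne h5 fun h => hbad ⟨hb, n, a, h8, h⟩, by linarith⟩

/-- measurability for Fubini -/
theorem measurable_exc {Ω : Type} [MeasurableSpace Ω] {A : Ω → Set ℕ} (hA : ∀ k, MeasurableSet {ω | k ∈ A ω})
    {H : ℝ → ℝ} (hH : Measurable H) : MeasurableSet {z : Ω × ℝ | z.2 ∈ Exc (A z.1) H} := by
  have h1 : {z : Ω × ℝ | z.2 ∈ Exc (A z.1) H} = {z : Ω × ℝ | 1 < z.2} ∩ ⋂ N : ℕ, ⋃ n : ℕ, ⋃ (_ : N ≤ n), ⋂ m : ℕ,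
      ({z : Ω × ℝ | m ∈ A z.1} ∩ {z : Ω × ℝ | z.2 ^ n < (m : ℝ) ∧ (m : ℝ) < z.2 ^ n + H (z.2 ^ n)})ᶜ := by
    ext z
    simp only [Exc, Set.mem_ofPred_eq, Set.mem_inter_iff, Set.mem_iInter, Set.mem_iUnion, Set.mem_compl_iff,
      frequently_atTop, not_and, exists_prop]
  rw [h1]
  refine (measurableSet_lt measurable_const measurable_snd).inter ?_
  refine MeasurableSet.iInter fun N => MeasurableSet.iUnion fun n => MeasurableSet.iUnion fun _ =>
    MeasurableSet.iInter fun m => ((measurable_fst (hA m)).inter ?_).compl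
  have h2 : Measurable fun z : Ω × ℝ => z.2 ^ n := measurable_snd.pow_const n
  exact (measurableSet_lt h2 measurable_const).inter (measurableSet_lt measurable_const (h2.add (hH.comp h2)))

theorem measurable_LL (c : ℝ) : Measurable (LL c) := by
  unfold LL
  exact (Real.measurable_log.mul (Real.measurable_log.comp Real.measurable_log)).const_mul c

theorem LL_anti {S : Set ℕ} {c c' : ℝ} (h : c' ≤ c) : Exc S (LL c) ⊆ Exc S (LL c') := by
  apply Exc_anti
  filter_upwards [eventually_ge_atTop (Real.exp (Real.exp 0))] with x hx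
  unfold LL
  have h1 : Real.exp 0 ≤ Real.log x := by
    rw [Real.le_log_iff_exp_le (lt_of_lt_of_le (Real.exp_pos _) hx)]
    exact hx
  rw [Real.exp_zero] at h1
  have h2 : 0 ≤ Real.log (Real.log x) := Real.log_nonneg h1
  have h3 : 0 ≤ Real.log x * Real.log (Real.log x) := mul_nonneg (by linarith) h2
  exact mul_le_mul_of_nonneg_right h h3

/-- **Almost every base.** -/
theorem ae_bases {Ω : Type} [MeasurableSpace Ω] {μ : Measure Ω} [IsProbabilityMeasure μ] {A : Ω → Set ℕ}
    (hA : IsCramer μ A) : ∀ᵐ ω ∂μ, ∀ᵐ b : ℝ, 1 < b → ∀ c : ℝ, (b ∈ Exc (A ω) (LL c) ↔ c ≤ 1) := by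
  have hbad : ∀ᵐ b : ℝ, b ∉ Bad := by
    rw [ae_iff]
    simp only [not_not]
    exact bad_countable.measure_zero _
  have h1 : ∀ᵐ ω ∂μ, ∀ᵐ b : ℝ, 1 < b → b ∈ Exc (A ω) (LL 1) := by
    have hm : MeasurableSet {z : Ω × ℝ | 1 < z.2 → z.2 ∈ Exc (A z.1) (LL 1)} := by
      have e1 := measurable_exc (A := A) (fun k => hA.random k) (measurable_LL 1)
      have e3 : MeasurableSet {z : Ω × ℝ | 1 < z.2} := measurableSet_lt measurable_const measurable_snd
      have e4 : {z : Ω × ℝ | 1 < z.2 → z.2 ∈ Exc (A z.1) (LL 1)} =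
          {z : Ω × ℝ | 1 < z.2}ᶜ ∪ {z : Ω × ℝ | z.2 ∈ Exc (A z.1) (LL 1)} := by
        ext z
        simp only [Set.mem_ofPred_eq, Set.mem_union, Set.mem_compl_iff]
        tauto
      rw [e4]
      exact e3.compl.union e1
    rw [Measure.ae_ae_comm hm]
    refine Eventually.of_forall fun b => ?_
    by_cases hb : 1 < b
    · filter_upwards [one_base hA hb] with ω hω _
      exact hω
    · exact Eventually.of_forall fun ω h => absurd h hb
  have h2 : ∀ q : ℚ, (1 : ℝ) < q → ∀ᵐ ω ∂μ, ∀ᵐ b : ℝ, 1 < b → b ∉ Exc (A ω) (LL q) := by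
    intro q hq
    have hm : MeasurableSet {z : Ω × ℝ | 1 < z.2 → z.2 ∉ Exc (A z.1) (LL q)} := by
      have e1 := measurable_exc (A := A) (fun k => hA.random k) (measurable_LL q)
      have e3 : MeasurableSet {z : Ω × ℝ | 1 < z.2} := measurableSet_lt measurable_const measurable_snd
      have e4 : {z : Ω × ℝ | 1 < z.2 → z.2 ∉ Exc (A z.1) (LL q)} =
          {z : Ω × ℝ | 1 < z.2}ᶜ ∪ {z : Ω × ℝ | z.2 ∈ Exc (A z.1) (LL q)}ᶜ := by
        ext z
        simp only [Set.mem_ofPred_eq, Set.mem_union, Set.mem_compl_iff]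
        tauto
      rw [e4]
      exact e3.compl.union e1.compl
    rw [Measure.ae_ae_comm hm]
    filter_upwards [hbad] with b hbb
    by_cases hb : 1 < b
    · filter_upwards [one_base' hA hb hbb hq] with ω hω _
      exact hω
    · exact Eventually.of_forall fun ω h => absurd h hb
  have h3 : ∀ᵐ ω ∂μ, ∀ q : ℚ, (1 : ℝ) < q → ∀ᵐ b : ℝ, 1 < b → b ∉ Exc (A ω) (LL q) := by
    simp only [ae_all_iff]
    exact h2
  filter_upwards [h1, h3] with ω hω1 hω2
  have h4 : ∀ᵐ b : ℝ, ∀ q : ℚ, (1 : ℝ) < q → 1 < b → b ∉ Exc (A ω) (LL q) := by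
    rw [ae_all_iff]
    intro q
    by_cases hq : (1 : ℝ) < q
    · filter_upwards [hω2 q hq] with b hb _
      exact hb
    · exact Eventually.of_forall fun b h => absurd h hq
  filter_upwards [hω1, h4] with b hb1 hb2 hb c
  constructor
  · intro h
    by_contra hc
    push Not at hc
    obtain ⟨q, hq1, hq2⟩ := exists_rat_btwn hc
    exact hb2 q hq1 hb (LL_anti hq2.le h)
  · intro hc
    exact LL_anti hc (hb1 hb)

end Pool.Agent.Q166.EB
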